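import Pool.Agent.helper83.NutSmall.Lin

/-!
# Soundness of the table and of the whole run
-/

set_option autoImplicit false

namespace Pool.Agent.helper83.NutSmall2

open Finset

/-- hexadecimal digit -/
def dg (p i : ℕ) : ℕ := (p >>> (4 * i)) % 16

theorem dg_lt (p i : ℕ) : dg p i < 16 := Nat.mod_lt _ (by norm_num)

theorem dg_zero (p : ℕ) : dg p 0 = p % 16 := rfl

theorem dg_succ (p i : ℕ) : dg p (i + 1) = dg (p >>> 4) i := by
  unfold dg
  rw [← Nat.shiftRight_add]
  congr 2
  ring

theorem embInj_succ (s j p M : ℕ) : embInj s (j + 1) p M =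
    Bool.rec (motive := fun _ => Bool) false
        (Bool.rec (motive := fun _ => Bool) false
          (embInj s j (p >>> 4) (M + 1 <<< (p % 16)))
          (Nat.beq ((M >>> (p % 16)) % 2) 0))
        (Nat.ble ((p % 16) + 1) s) := rfl

theorem embInj_sound (s : ℕ) : ∀ (j p M : ℕ) (S : Finset ℕ),
    M = dsum 2 16 (fun i => if i ∈ S then 1 else 0) → embInj s j p M = true →
    ∀ i < j, dg p i < s ∧ dg p i ∉ S ∧ ∀ i' < j, dg p i = dg p i' → i = i' := by
  intro j
  induction j with
  | zero => intro p M S _ _ i hi; omega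
  | succ j ih =>
    intro p M S hM h
    rw [embInj_succ] at h
    obtain ⟨h1, hs⟩ := bool_rec_true _ _ h
    obtain ⟨h2, hb⟩ := bool_rec_true _ _ h1
    replace hs := ble_true hs
    replace hb := beq_true hb
    have hd16 : p % 16 < 16 := Nat.mod_lt _ (by norm_num)
    have hnot : p % 16 ∉ S := by
      intro hmem
      rw [Nat.shiftRight_eq_div_pow, hM, dsum_digit 2 (by norm_num) _ 16 _
        (fun i _ => by
          show (if i ∈ S then 1 else 0) < 2
          split_ifs <;> omega) hd16, if_pos hmem] at hb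
      omega
    have hM' : M + 1 <<< (p % 16) = dsum 2 16 (fun i => if i ∈ insert (p % 16) S then 1 else 0) := by
      have : dsum 2 16 (fun i => if i ∈ insert (p % 16) S then 1 else 0) =
          dsum 2 16 (fun i => (if i ∈ S then 1 else 0) + (if i = p % 16 then 1 else 0)) := by
        refine dsum_congr _ _ _ _ fun i _ => ?_
        by_cases hi : i = p % 16
        · rw [if_pos (by rw [hi]; exact mem_insert_self _ _), if_pos hi, if_neg (by rw [hi]; exact hnot)]
        · by_cases hi2 : i ∈ S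
          · rw [if_pos (mem_insert_of_mem hi2), if_pos hi2, if_neg hi]
          · rw [if_neg (by
              rw [mem_insert]
              tauto), if_neg hi2, if_neg hi]
      rw [this, dsum_add, dsum_if 2 16 (p % 16) 1 hd16, ← hM, Nat.shiftLeft_eq]
    have h3 := ih (p >>> 4) _ _ hM' h2
    intro i hi
    rcases Nat.eq_zero_or_pos i with rfl | hi0
    · refine ⟨by rw [dg_zero]; omega, by rw [dg_zero]; exact hnot, ?_⟩
      intro i' hi' he
      rcases Nat.eq_zero_or_pos i' with rfl | hi0'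
      · rfl
      · obtain ⟨i', rfl⟩ : ∃ m, i' = m + 1 := ⟨i' - 1, by omega⟩
        rw [dg_succ, dg_zero] at he
        exact absurd (by rw [← he]; exact mem_insert_self _ _) (h3 i' (by omega)).2.1
    · obtain ⟨i, rfl⟩ : ∃ m, i = m + 1 := ⟨i - 1, by omega⟩
      obtain ⟨h4, h5, h6⟩ := h3 i (by omega)
      rw [dg_succ]
      refine ⟨h4, fun h7 => h5 (mem_insert_of_mem h7), ?_⟩
      intro i' hi' he
      rcases Nat.eq_zero_or_pos i' with rfl | hi0'
      · rw [dg_zero] at he
        exact absurd (by rw [he]; exact mem_insert_self _ _) h5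
      · obtain ⟨i', rfl⟩ : ∃ m, i' = m + 1 := ⟨i' - 1, by omega⟩
        rw [dg_succ] at he
        have := h6 i' (by omega) he
        omega

/-- the codes of the edges are divisible by 4 -/
def Div4 : ℕ → ℕ → Prop
  | 0, _ => True
  | m + 1, e => e % 4 = 0 ∧ (e >>> 6) % 4 = 0 ∧ Div4 m (e >>> 12)

/-- the edges are mapped to edges -/
def EmbL {n : ℕ} (A : Fin n → Fin n → Bool) (f : ℕ → Fin n) : ℕ → ℕ → Prop
  | 0, _ => True
  | m + 1, e => A (f (e % 64 / 4)) (f ((e >>> 6) % 64 / 4)) = true ∧ EmbL A f m (e >>> 12)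

theorem XG_bit (G : ℕ → ℕ → Bool) (a b : ℕ) (ha : a < 16) (hb : b < 16) :
    (XG G >>> (256 * a + 16 * b)) % 2 = bb (G a b) := by
  have h1 : XG G / (2 ^ 256) ^ a % 2 ^ 256 = rw' G a :=
    dsum_digit (2 ^ 256) (by positivity) a 16 (rw' G) (fun i _ => rw_lt G i) ha
  have h2 : rw' G a / 65536 ^ b % 65536 = bb (G a b) :=
    dsum_digit 65536 (by norm_num) b 16 (fun w => bb (G a w))
      (fun i _ => lt_of_le_of_lt (bb_le _) (by norm_num)) hb
  have h3 : (65536 : ℕ) ^ b = 2 ^ (16 * b) := by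
    rw [pow_mul]
    norm_num
  rw [Nat.shiftRight_eq_div_pow, pow_add, ← Nat.div_div_eq_div_mul, pow_mul]
  set Y := XG G / (2 ^ 256) ^ a with hY
  have h4 : Y = 2 ^ (16 * b) * (2 ^ 16 * (2 ^ (240 - 16 * b) * (Y / 2 ^ 256))) + rw' G a := by
    rw [← mul_assoc, ← mul_assoc, ← pow_add, ← pow_add,
      show 16 * b + 16 + (240 - 16 * b) = 256 by omega]
    rw [← h1]
    exact (Nat.div_add_mod Y (2 ^ 256)).symm
  rw [h4, Nat.mul_add_div (by positivity)]
  have h5 : (2 ^ 16 * (2 ^ (240 - 16 * b) * (Y / 2 ^ 256)) + rw' G a / 2 ^ (16 * b)) % 65536 =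
      bb (G a b) := by
    have : (2 : ℕ) ^ 16 = 65536 := by norm_num
    rw [this, Nat.mul_add_mod, ← h3, h2]
  have h6 : bb (G a b) % 2 = bb (G a b) := Nat.mod_eq_of_lt (lt_of_le_of_lt (bb_le _) (by norm_num))
  rw [← h6, ← h5]
  rw [Nat.mod_mod_of_dvd _ (by norm_num)]

theorem embEdges_succ (X p m e : ℕ) : embEdges X p (m + 1) e =
      Bool.rec (motive := fun _ => Bool) false
        (embEdges X p m (e >>> 12))
        (Nat.beq ((X >>> (256 * ((p >>> (e % 64)) % 16) + 16 * ((p >>> ((e >>> 6) % 64)) % 16))) % 2)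
          1) := rfl

section
variable {k n : ℕ} {A : Fin n → Fin n → Bool} {x : Fin n → ℝ}

theorem embEdges_sound {s : ℕ} {G : ℕ → ℕ → Bool} {f : ℕ → Fin n} (h : Emb A s G f) (p : ℕ) :
    ∀ (m e : ℕ), Div4 m e → embEdges (XG G) p m e = true → EmbL A (fun i => f (dg p i)) m e := by
  intro m
  induction m with
  | zero => intro e _ _; exact trivial
  | succ m ih =>
    intro e hd he
    rw [embEdges_succ] at he
    obtain ⟨h1, hb⟩ := bool_rec_true _ _ he
    replace hb := beq_true hb
    obtain ⟨hd1, hd2, hd3⟩ := hd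
    refine ⟨?_, ih _ hd3 h1⟩
    have e1 : e % 64 = 4 * (e % 64 / 4) := by omega
    have e2 : (e >>> 6) % 64 = 4 * ((e >>> 6) % 64 / 4) := by omega
    rw [e1, e2, XG_bit G _ _ (Nat.mod_lt _ (by norm_num)) (Nat.mod_lt _ (by norm_num))] at hb
    refine h.edge _ _ ?_
    cases hG : G (dg p (e % 64 / 4)) (dg p ((e >>> 6) % 64 / 4))
    · have : bb (G (dg p (e % 64 / 4)) (dg p ((e >>> 6) % 64 / 4))) = 1 := hb
      rw [hG, bb_false] at this
      omega
    · rfl

/-- the table entry `E` is refuted -/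
def RefE {n : ℕ} (A : Fin n → Fin n → Bool) (E : ℕ) : Prop :=
  Div4 ((E >>> 5) % 64) (E >>> 11) ∧ ∀ f : ℕ → Fin n,
    (∀ i < E % 32, ∀ j < E % 32, f i = f j → i = j) → ¬ EmbL A f ((E >>> 5) % 64) (E >>> 11)

theorem embB_sound (T : Tgt k n A x) (hn : n ≤ 16) (hk : k < 16) (g p E : ℕ) (b : Bool)
    (hE : RefE A E) (h : embB g p E b = true) : ¬ Real k A g ∧ b = true := by
  have h0 : Bool.rec (motive := fun _ => Bool) false
    (Bool.rec (motive := fun _ => Bool) false b
      (embEdges (g >>> 69) p ((E >>> 5) % 64) (E >>> 11)))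
    (embInj (g % 32) (E % 32) p 0) = true := h
  clear h
  obtain ⟨h1, hinj⟩ := bool_rec_true _ _ h0
  obtain ⟨h2, hed⟩ := bool_rec_true _ _ h1
  refine ⟨?_, h2⟩
  rintro ⟨s, G, f, hEm, hg⟩
  have hs := hEm.le
  have hgs : g % 32 = s := by rw [hg]; exact code_mod32 k s G (by omega)
  rw [hgs] at hinj
  have hX : g >>> 69 = XG G := by
    rw [Nat.shiftRight_eq_div_pow, hg]
    exact code_div k s G hk (by omega)
  rw [hX] at hed
  have h3 := embInj_sound s (E % 32) p 0 ∅ (by
    unfold dsum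
    simp) hinj
  refine hE.2 (fun i => f (dg p i)) ?_ (embEdges_sound hEm p _ _ hE.1 hed)
  intro i hi j hj hij
  exact (h3 i hi).2.2 j hj (hEm.inj _ (h3 i hi).1 _ (h3 j hj).1 hij)

theorem emb_sound (T : Tgt k n A x) (hn : n ≤ 16) (hk : k < 16) (Tb : ℕ → ℕ) (i0 g c : ℕ)
    (K : ℕ → Bool) (hT : ∀ j < i0, RefE A (entry Tb j)) (h : emb Tb i0 g c K = true) :
    ¬ Real k A g ∧ ∃ c', K c' = true := by
  have h0 : Bool.rec (motive := fun _ => Bool) false
    (embB g ((c >>> 16) % 18446744073709551616) (entry Tb (c % 65536)) (K (c >>> 80)))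
    (Nat.ble (c % 65536 + 1) i0) = true := h
  clear h
  obtain ⟨h1, h2⟩ := bool_rec_true _ _ h0
  obtain ⟨h3, h4⟩ := embB_sound T hn hk g _ _ _ (hT _ (ble_true h2)) h1
  exact ⟨h3, _, h4⟩

theorem force_eq {α : Type} (y : ℕ) (F : ℕ → α) : force y F = F y := by
  cases y <;> rfl

theorem step_sound (T : Tgt k n A x) (hn : n ≤ 16) (hk : k < 16) (hk0 : 0 < k) (Tb : ℕ → ℕ)
    (i0 g c : ℕ)
    (st : List ℕ) (K : ℕ → List ℕ → Bool) (hT : ∀ j < i0, RefE A (entry Tb j))
    (hK : ∀ c' st', K c' st' = true → ∀ y ∈ st', ¬ Real k A y)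
    (h : step k n Tb i0 g c st K = true) : ¬ Real k A g ∧ ∀ y ∈ st, ¬ Real k A y := by
  have h0 : Bool.rec (motive := fun _ => Bool)
    (Bool.rec (motive := fun _ => Bool)
      (Bool.rec (motive := fun _ => Bool)
        (emb Tb i0 g (c >>> 2) fun c' => K c' st)
        (dep k n g (c >>> 2) fun c' => K c' st)
        (Nat.beq (c % 4) 2))
      (lin k n g (c >>> 2) fun c' => K c' st)
      (Nat.beq (c % 4) 1))
    (Bool.rec (motive := fun _ => Bool) false
      (K (c >>> 6) (br k n g ((c >>> 2) % 16) st))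
      (Nat.ble ((c >>> 2) % 16 + 1) (g % 32)))
    (Nat.beq (c % 4) 0) = true := h
  clear h
  cases hb0 : Nat.beq (c % 4) 0
  · rw [hb0] at h0
    cases hb1 : Nat.beq (c % 4) 1
    · rw [hb1] at h0
      cases hb2 : Nat.beq (c % 4) 2
      · rw [hb2] at h0
        obtain ⟨h1, c', h2⟩ := emb_sound T hn hk Tb i0 g (c >>> 2) (fun c' => K c' st) hT h0
        exact ⟨h1, hK c' st h2⟩
      · rw [hb2] at h0
        obtain ⟨h1, c', h2⟩ := dep_sound T hn hk hk0 g (c >>> 2) (fun c' => K c' st) h0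
        exact ⟨h1, hK c' st h2⟩
    · rw [hb1] at h0
      obtain ⟨h1, c', h2⟩ := lin_sound T hn hk hk0 g (c >>> 2) (fun c' => K c' st) h0
      exact ⟨h1, hK c' st h2⟩
  · rw [hb0] at h0
    obtain ⟨h1, h2⟩ := bool_rec_true _ _ h0
    exact br_sound T hn hk g _ st (ble_true h2) (hK _ _ h1)

theorem run_sound (T : Tgt k n A x) (hn : n ≤ 16) (hk : k < 16) (hk0 : 0 < k) (Tb : ℕ → ℕ) (i0 : ℕ)
    (hT : ∀ j < i0, RefE A (entry Tb j)) : ∀ (fuel c : ℕ) (st : List ℕ),
    run k n Tb i0 fuel c st = true → ∀ y ∈ st, ¬ Real k A y := by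
  intro fuel
  induction fuel with
  | zero =>
    intro c st h
    cases st with
    | nil => intro y hy; exact absurd hy List.not_mem_nil
    | cons g st => exact absurd h Bool.false_ne_true
  | succ fuel ih =>
    intro c st h
    cases st with
    | nil => intro y hy; exact absurd hy List.not_mem_nil
    | cons g st =>
      have h0 : (force c fun c => force g fun g => step k n Tb i0 g c st (run k n Tb i0 fuel)) =
        true := h
      rw [force_eq, force_eq] at h0
      obtain ⟨h1, h2⟩ := step_sound T hn hk hk0 Tb i0 g c st _ hT ih h0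
      intro y hy
      rcases List.mem_cons.1 hy with rfl | hy
      · exact h1
      · exact h2 y hy

theorem mk_succ (m e g : ℕ) (K : ℕ → Bool) : mk (m + 1) e g K =
      force g fun g =>
      Bool.rec (motive := fun _ => Bool) false
        (Bool.rec (motive := fun _ => Bool) false
          (Bool.rec (motive := fun _ => Bool)
            (Bool.rec (motive := fun _ => Bool) false
              (Bool.rec (motive := fun _ => Bool) false
                (Bool.rec (motive := fun _ => Bool) false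
                  (mk m (e >>> 12) (addE g (e % 64 / 4) ((e >>> 6) % 64 / 4)) K)
                  (Nat.beq ((e >>> 6) % 4) 0))
                (Nat.beq (e % 4) 0))
              (Nat.beq (dig (row g (e % 64 / 4)) ((e >>> 6) % 64 / 4)) 0)) false
            (Nat.beq (e % 64 / 4) ((e >>> 6) % 64 / 4)))
          (Nat.ble ((e >>> 6) % 64 / 4 + 1) (g % 32)))
        (Nat.ble (e % 64 / 4 + 1) (g % 32)) := rfl

theorem mk_step (m e g : ℕ) (K : ℕ → Bool) (h : mk (m + 1) e g K = true) :
    e % 64 / 4 < g % 32 ∧ (e >>> 6) % 64 / 4 < g % 32 ∧ e % 64 / 4 ≠ (e >>> 6) % 64 / 4 ∧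
    dig (row g (e % 64 / 4)) ((e >>> 6) % 64 / 4) = 0 ∧ e % 4 = 0 ∧ (e >>> 6) % 4 = 0 ∧
    mk m (e >>> 12) (addE g (e % 64 / 4) ((e >>> 6) % 64 / 4)) K = true := by
  rw [mk_succ, force_eq] at h
  obtain ⟨h1, hc1⟩ := bool_rec_true _ _ h
  obtain ⟨h2, hc2⟩ := bool_rec_true _ _ h1
  obtain ⟨h3, hc3⟩ := bool_rec_false _ _ h2
  obtain ⟨h4, hc4⟩ := bool_rec_true _ _ h3
  obtain ⟨h5, hc5⟩ := bool_rec_true _ _ h4
  obtain ⟨h6, hc6⟩ := bool_rec_true _ _ h5
  exact ⟨ble_true hc1, ble_true hc2, beq_false hc3, beq_true hc4, beq_true hc5, beq_true hc6, h6⟩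

theorem mk_div (K : ℕ → Bool) : ∀ (m e g : ℕ), mk m e g K = true →
    Div4 m e ∧ ∃ g', K g' = true := by
  intro m
  induction m with
  | zero => intro e g h; exact ⟨trivial, g, h⟩
  | succ m ih =>
    intro e g h
    obtain ⟨_, _, _, _, h5, h6, h7⟩ := mk_step m e g K h
    obtain ⟨h8, h9⟩ := ih _ _ h7
    exact ⟨⟨h5, h6, h8⟩, h9⟩

theorem mk_sound (T : Tgt k n A x) (hn : n ≤ 16) (hk : k < 16) (s : ℕ) (f : ℕ → Fin n)
    (K : ℕ → Bool) : ∀ (m e : ℕ) (G : ℕ → ℕ → Bool), Emb A s G f → EmbL A f m e →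
    mk m e (code k s G) K = true → ∃ g', Real k A g' ∧ K g' = true := by
  intro m
  induction m with
  | zero =>
    intro e G hE _ h
    exact ⟨_, ⟨s, G, f, hE, rfl⟩, h⟩
  | succ m ih =>
    intro e G hE hL h
    obtain ⟨h1, h2, h3, h4, _, _, h7⟩ := mk_step m e _ K h
    have hs := hE.le
    rw [code_mod32 k s G (by omega)] at h1 h2
    obtain ⟨hL1, hL2⟩ := hL
    set a := e % 64 / 4 with ha
    set b := (e >>> 6) % 64 / 4 with hb
    rw [row_code k s G hk (by omega) a (by omega), dig_rw G a b (by omega)] at h4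
    have hG : G a b = false := by
      cases hb : G a b
      · rfl
      · rw [hb, bb_true] at h4
        omega
    have hG' : G b a = false := by rw [hE.sym]; exact hG
    have hE' := Emb.addE T hE a b h1 h2 hL1
    have hdeg := deg_addG G a b h3 hG hG' (by omega) (by omega)
    have hda := deg_le_k T (by omega) hE' a
    have hdb := deg_le_k T (by omega) hE' b
    rw [hdeg a, if_pos rfl] at hda
    rw [hdeg b, if_pos rfl] at hdb
    rw [addE_code k s G a b h3 hG hG' (by omega) h1 h2 (by omega) (by omega)] at h7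
    exact ih _ _ hE' hL2 h7

theorem start_code (k s : ℕ) : start k s = code k s (fun _ _ => false) := by
  have h1 : XG (fun _ _ => false) = 0 := by
    unfold XG rw' dsum
    simp [bb]
  have h2 : ∀ u, deg (fun _ _ => false) u = 0 := by
    intro u
    unfold deg
    simp [bb]
  unfold code DG
  rw [h1]
  have h3 : dsum 16 s (fun u => k - deg (fun _ _ => false) u) = k * ((16 ^ s - 1) / 15) := by
    rw [dsum_congr 16 s _ (fun _ => k) (fun u _ => by rw [h2]; rfl)]
    have h4 := Nat.geomSum_eq (m := 16) (by norm_num) s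
    unfold dsum
    rw [← Finset.mul_sum, h4]
  rw [h3]
  show s + 32 * k * ((16 ^ s - 1) / 15) = _
  ring

theorem Emb.empty {s : ℕ} {f : ℕ → Fin n} (h : ∀ i < s, ∀ j < s, f i = f j → i = j) :
    Emb A s (fun _ _ => false) f where
  sup := by intro u w hu; exact absurd hu Bool.false_ne_true
  sym := by intro u w; rfl
  inj := h
  edge := by intro u w hu; exact absurd hu Bool.false_ne_true

theorem checkFrom_cons (k n : ℕ) (Tb : ℕ → ℕ) (c : ℕ) (l : List ℕ) (i : ℕ) : checkFrom k n Tb (c :: l) i =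
      force (entry Tb i) fun E =>
      Bool.rec (motive := fun _ => Bool) false
        (mk ((E >>> 5) % 64) (E >>> 11) (start k (E % 32))
          fun g =>
            Bool.rec (motive := fun _ => Bool) false (checkFrom k n Tb l (i + 1))
              (run k n Tb i (c % 4096) (c >>> 12) [g]))
        (Nat.ble (E % 32) 16) := rfl

theorem checkFrom_sound (T : Tgt k n A x) (hn : n ≤ 16) (hk : k < 16) (hk0 : 0 < k)
    (Tb : ℕ → ℕ) :
    ∀ (l : List ℕ) (i : ℕ), checkFrom k n Tb l i = true → (∀ j < i, RefE A (entry Tb j)) →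
      ∀ j < i + l.length, RefE A (entry Tb j) := by
  intro l
  induction l with
  | nil =>
    intro i _ hT j hj
    exact hT j (by simpa using hj)
  | cons c l ih =>
    intro i h hT j hj
    rw [checkFrom_cons, force_eq] at h
    obtain ⟨h1, _⟩ := bool_rec_true _ _ h
    obtain ⟨h2, g0, h3⟩ := mk_div _ _ _ _ h1
    obtain ⟨h4, _⟩ := bool_rec_true _ _ h3
    have hi : RefE A (entry Tb i) := by
      refine ⟨h2, fun f hf hL => ?_⟩
      rw [start_code] at h1
      obtain ⟨g', hg1, hg2⟩ := mk_sound T hn hk _ f _ _ _ _ (Emb.empty hf) hL h1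
      obtain ⟨_, h6⟩ := bool_rec_true _ _ hg2
      exact run_sound T hn hk hk0 Tb i hT _ _ _ h6 g' List.mem_cons_self hg1
    refine ih (i + 1) h4 ?_ j (by
      rw [List.length_cons] at hj
      omega)
    intro j' hj'
    rcases Nat.lt_or_ge j' i with h5 | h5
    · exact hT j' h5
    · have : j' = i := by omega
      rw [this]
      exact hi

/-- the last entry of the table is the one-vertex state -/
theorem final_false {n' : ℕ} {A' : Fin (n' + 1) → Fin (n' + 1) → Bool} (Tb : ℕ → ℕ) (j : ℕ)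
    (h : RefE A' (entry Tb j)) (hE : entry Tb j = 1) : False := by
  rw [hE] at h
  refine h.2 (fun _ => 0) ?_ ?_
  · intro i hi i' hi' _
    have : (1 : ℕ) % 32 = 1 := by norm_num
    omega
  · exact trivial

end

end Pool.Agent.helper83.NutSmall2
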