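import Pool.Agent.helper83.NutSmall.C3_10_a
import Pool.Agent.helper83.NutSmall.Table

/-!
# Degree 3 and order 10
-/

set_option autoImplicit false

namespace Pool.Agent.helper83.NutSmall2

open Finset

theorem last_3_10 : entry T3_10.T 11 = 1 := by decide +kernel

/-- one chunk -/
theorem chunk_3_10 {A : Fin 10 → Fin 10 → Bool} {x : Fin 10 → ℝ} (T : Tgt 3 10 A x) {lo len : ℕ}
    {l : List ℕ} (h : checkFrom 3 10 T3_10.T l lo = true) (hl : l.length = len)
    (h0 : ∀ j < lo, RefE A (entry T3_10.T j)) : ∀ j < lo + len, RefE A (entry T3_10.T j) := by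
  have h1 := checkFrom_sound T (by norm_num) (by norm_num) (by norm_num) T3_10.T l lo h h0
  rw [hl] at h1
  exact h1

/-- there is no 3-regular graph on 10 vertices whose adjacency matrix has a one-dimensional kernel
spanned by a nowhere zero vector -/
theorem no_adj_3_10 (A : Fin 10 → Fin 10 → Bool) (symm : ∀ u v, A u v = A v u)
    (irr : ∀ v, A v v = false)
    (reg : ∀ v, (univ.filter (fun u => A v u = true)).card = 3)
    (x : Fin 10 → ℝ) (nz : ∀ v, x v ≠ 0) (ker : ∀ v, ∑ u, (if A v u then x u else 0) = 0)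
    (simple : ∀ z : Fin 10 → ℝ, (∀ v, ∑ u, (if A v u then z u else 0) = 0) →
      ∃ l : ℝ, ∀ v, z v = l * x v) : False := by
  have T : Tgt 3 10 A x := ⟨symm, irr, reg, nz, ker, simple⟩
  have h0 : ∀ j < 0, RefE A (entry T3_10.T j) := fun j hj => absurd hj (Nat.not_lt_zero j)
  have h1 : ∀ j < 12, RefE A (entry T3_10.T j) :=
    chunk_3_10 T C3_10.chk0 C3_10.len0 h0
  exact final_false T3_10.T 11 (h1 11 (by norm_num)) last_3_10

end Pool.Agent.helper83.NutSmall2
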