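import Pool.Agent.helper83.NutSmall.C3_16_a
import Pool.Agent.helper83.NutSmall.C3_16_b
import Pool.Agent.helper83.NutSmall.C3_16_c
import Pool.Agent.helper83.NutSmall.Table

/-!
# Degree 3 and order 16
-/

set_option autoImplicit false

namespace Pool.Agent.helper83.NutSmall2

open Finset

theorem last_3_16 : entry T3_16.T 2454 = 1 := by decide +kernel

/-- one chunk -/
theorem chunk_3_16 {A : Fin 16 → Fin 16 → Bool} {x : Fin 16 → ℝ} (T : Tgt 3 16 A x) {lo len : ℕ}
    {l : List ℕ} (h : checkFrom 3 16 T3_16.T l lo = true) (hl : l.length = len)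
    (h0 : ∀ j < lo, RefE A (entry T3_16.T j)) : ∀ j < lo + len, RefE A (entry T3_16.T j) := by
  have h1 := checkFrom_sound T (by norm_num) (by norm_num) (by norm_num) T3_16.T l lo h h0
  rw [hl] at h1
  exact h1

/-- there is no 3-regular graph on 16 vertices whose adjacency matrix has a one-dimensional kernel
spanned by a nowhere zero vector -/
theorem no_adj_3_16 (A : Fin 16 → Fin 16 → Bool) (symm : ∀ u v, A u v = A v u)
    (irr : ∀ v, A v v = false)
    (reg : ∀ v, (univ.filter (fun u => A v u = true)).card = 3)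
    (x : Fin 16 → ℝ) (nz : ∀ v, x v ≠ 0) (ker : ∀ v, ∑ u, (if A v u then x u else 0) = 0)
    (simple : ∀ z : Fin 16 → ℝ, (∀ v, ∑ u, (if A v u then z u else 0) = 0) →
      ∃ l : ℝ, ∀ v, z v = l * x v) : False := by
  have T : Tgt 3 16 A x := ⟨symm, irr, reg, nz, ker, simple⟩
  have h0 : ∀ j < 0, RefE A (entry T3_16.T j) := fun j hj => absurd hj (Nat.not_lt_zero j)
  have h1 : ∀ j < 90, RefE A (entry T3_16.T j) :=
    chunk_3_16 T C3_16.chk0 C3_16.len0 h0
  have h2 : ∀ j < 182, RefE A (entry T3_16.T j) :=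
    chunk_3_16 T C3_16.chk1 C3_16.len1 h1
  have h3 : ∀ j < 276, RefE A (entry T3_16.T j) :=
    chunk_3_16 T C3_16.chk2 C3_16.len2 h2
  have h4 : ∀ j < 388, RefE A (entry T3_16.T j) :=
    chunk_3_16 T C3_16.chk3 C3_16.len3 h3
  have h5 : ∀ j < 461, RefE A (entry T3_16.T j) :=
    chunk_3_16 T C3_16.chk4 C3_16.len4 h4
  have h6 : ∀ j < 567, RefE A (entry T3_16.T j) :=
    chunk_3_16 T C3_16.chk5 C3_16.len5 h5
  have h7 : ∀ j < 699, RefE A (entry T3_16.T j) :=
    chunk_3_16 T C3_16.chk6 C3_16.len6 h6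
  have h8 : ∀ j < 795, RefE A (entry T3_16.T j) :=
    chunk_3_16 T C3_16.chk7 C3_16.len7 h7
  have h9 : ∀ j < 875, RefE A (entry T3_16.T j) :=
    chunk_3_16 T C3_16.chk8 C3_16.len8 h8
  have h10 : ∀ j < 978, RefE A (entry T3_16.T j) :=
    chunk_3_16 T C3_16.chk9 C3_16.len9 h9
  have h11 : ∀ j < 1046, RefE A (entry T3_16.T j) :=
    chunk_3_16 T C3_16.chk10 C3_16.len10 h10
  have h12 : ∀ j < 1098, RefE A (entry T3_16.T j) :=
    chunk_3_16 T C3_16.chk11 C3_16.len11 h11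
  have h13 : ∀ j < 1168, RefE A (entry T3_16.T j) :=
    chunk_3_16 T C3_16.chk12 C3_16.len12 h12
  have h14 : ∀ j < 1244, RefE A (entry T3_16.T j) :=
    chunk_3_16 T C3_16.chk13 C3_16.len13 h13
  have h15 : ∀ j < 1326, RefE A (entry T3_16.T j) :=
    chunk_3_16 T C3_16.chk14 C3_16.len14 h14
  have h16 : ∀ j < 1380, RefE A (entry T3_16.T j) :=
    chunk_3_16 T C3_16.chk15 C3_16.len15 h15
  have h17 : ∀ j < 1429, RefE A (entry T3_16.T j) :=
    chunk_3_16 T C3_16.chk16 C3_16.len16 h16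
  have h18 : ∀ j < 1520, RefE A (entry T3_16.T j) :=
    chunk_3_16 T C3_16.chk17 C3_16.len17 h17
  have h19 : ∀ j < 1611, RefE A (entry T3_16.T j) :=
    chunk_3_16 T C3_16.chk18 C3_16.len18 h18
  have h20 : ∀ j < 1677, RefE A (entry T3_16.T j) :=
    chunk_3_16 T C3_16.chk19 C3_16.len19 h19
  have h21 : ∀ j < 1744, RefE A (entry T3_16.T j) :=
    chunk_3_16 T C3_16.chk20 C3_16.len20 h20
  have h22 : ∀ j < 1830, RefE A (entry T3_16.T j) :=
    chunk_3_16 T C3_16.chk21 C3_16.len21 h21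
  have h23 : ∀ j < 1911, RefE A (entry T3_16.T j) :=
    chunk_3_16 T C3_16.chk22 C3_16.len22 h22
  have h24 : ∀ j < 2000, RefE A (entry T3_16.T j) :=
    chunk_3_16 T C3_16.chk23 C3_16.len23 h23
  have h25 : ∀ j < 2068, RefE A (entry T3_16.T j) :=
    chunk_3_16 T C3_16.chk24 C3_16.len24 h24
  have h26 : ∀ j < 2114, RefE A (entry T3_16.T j) :=
    chunk_3_16 T C3_16.chk25 C3_16.len25 h25
  have h27 : ∀ j < 2172, RefE A (entry T3_16.T j) :=
    chunk_3_16 T C3_16.chk26 C3_16.len26 h26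
  have h28 : ∀ j < 2289, RefE A (entry T3_16.T j) :=
    chunk_3_16 T C3_16.chk27 C3_16.len27 h27
  have h29 : ∀ j < 2377, RefE A (entry T3_16.T j) :=
    chunk_3_16 T C3_16.chk28 C3_16.len28 h28
  have h30 : ∀ j < 2455, RefE A (entry T3_16.T j) :=
    chunk_3_16 T C3_16.chk29 C3_16.len29 h29
  exact final_false T3_16.T 2454 (h30 2454 (by norm_num)) last_3_16

end Pool.Agent.helper83.NutSmall2
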