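import Pool.Agent.helper83.NutSmall.C4_13_a
import Pool.Agent.helper83.NutSmall.C4_13_b
import Pool.Agent.helper83.NutSmall.C4_13_c
import Pool.Agent.helper83.NutSmall.C4_13_d
import Pool.Agent.helper83.NutSmall.C4_13_e
import Pool.Agent.helper83.NutSmall.Table

/-!
# Degree 4 and order 13
-/

set_option autoImplicit false

namespace Pool.Agent.helper83.NutSmall2

open Finset

theorem last_4_13 : entry T4_13.T 4009 = 1 := by decide +kernel

/-- one chunk -/
theorem chunk_4_13 {A : Fin 13 → Fin 13 → Bool} {x : Fin 13 → ℝ} (T : Tgt 4 13 A x) {lo len : ℕ}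
    {l : List ℕ} (h : checkFrom 4 13 T4_13.T l lo = true) (hl : l.length = len)
    (h0 : ∀ j < lo, RefE A (entry T4_13.T j)) : ∀ j < lo + len, RefE A (entry T4_13.T j) := by
  have h1 := checkFrom_sound T (by norm_num) (by norm_num) (by norm_num) T4_13.T l lo h h0
  rw [hl] at h1
  exact h1

/-- there is no 4-regular graph on 13 vertices whose adjacency matrix has a one-dimensional kernel
spanned by a nowhere zero vector -/
theorem no_adj_4_13 (A : Fin 13 → Fin 13 → Bool) (symm : ∀ u v, A u v = A v u)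
    (irr : ∀ v, A v v = false)
    (reg : ∀ v, (univ.filter (fun u => A v u = true)).card = 4)
    (x : Fin 13 → ℝ) (nz : ∀ v, x v ≠ 0) (ker : ∀ v, ∑ u, (if A v u then x u else 0) = 0)
    (simple : ∀ z : Fin 13 → ℝ, (∀ v, ∑ u, (if A v u then z u else 0) = 0) →
      ∃ l : ℝ, ∀ v, z v = l * x v) : False := by
  have T : Tgt 4 13 A x := ⟨symm, irr, reg, nz, ker, simple⟩
  have h0 : ∀ j < 0, RefE A (entry T4_13.T j) := fun j hj => absurd hj (Nat.not_lt_zero j)
  have h1 : ∀ j < 103, RefE A (entry T4_13.T j) :=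
    chunk_4_13 T C4_13.chk0 C4_13.len0 h0
  have h2 : ∀ j < 213, RefE A (entry T4_13.T j) :=
    chunk_4_13 T C4_13.chk1 C4_13.len1 h1
  have h3 : ∀ j < 313, RefE A (entry T4_13.T j) :=
    chunk_4_13 T C4_13.chk2 C4_13.len2 h2
  have h4 : ∀ j < 415, RefE A (entry T4_13.T j) :=
    chunk_4_13 T C4_13.chk3 C4_13.len3 h3
  have h5 : ∀ j < 499, RefE A (entry T4_13.T j) :=
    chunk_4_13 T C4_13.chk4 C4_13.len4 h4
  have h6 : ∀ j < 567, RefE A (entry T4_13.T j) :=
    chunk_4_13 T C4_13.chk5 C4_13.len5 h5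
  have h7 : ∀ j < 633, RefE A (entry T4_13.T j) :=
    chunk_4_13 T C4_13.chk6 C4_13.len6 h6
  have h8 : ∀ j < 696, RefE A (entry T4_13.T j) :=
    chunk_4_13 T C4_13.chk7 C4_13.len7 h7
  have h9 : ∀ j < 727, RefE A (entry T4_13.T j) :=
    chunk_4_13 T C4_13.chk8 C4_13.len8 h8
  have h10 : ∀ j < 824, RefE A (entry T4_13.T j) :=
    chunk_4_13 T C4_13.chk9 C4_13.len9 h9
  have h11 : ∀ j < 887, RefE A (entry T4_13.T j) :=
    chunk_4_13 T C4_13.chk10 C4_13.len10 h10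
  have h12 : ∀ j < 971, RefE A (entry T4_13.T j) :=
    chunk_4_13 T C4_13.chk11 C4_13.len11 h11
  have h13 : ∀ j < 1040, RefE A (entry T4_13.T j) :=
    chunk_4_13 T C4_13.chk12 C4_13.len12 h12
  have h14 : ∀ j < 1101, RefE A (entry T4_13.T j) :=
    chunk_4_13 T C4_13.chk13 C4_13.len13 h13
  have h15 : ∀ j < 1164, RefE A (entry T4_13.T j) :=
    chunk_4_13 T C4_13.chk14 C4_13.len14 h14
  have h16 : ∀ j < 1246, RefE A (entry T4_13.T j) :=
    chunk_4_13 T C4_13.chk15 C4_13.len15 h15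
  have h17 : ∀ j < 1318, RefE A (entry T4_13.T j) :=
    chunk_4_13 T C4_13.chk16 C4_13.len16 h16
  have h18 : ∀ j < 1384, RefE A (entry T4_13.T j) :=
    chunk_4_13 T C4_13.chk17 C4_13.len17 h17
  have h19 : ∀ j < 1475, RefE A (entry T4_13.T j) :=
    chunk_4_13 T C4_13.chk18 C4_13.len18 h18
  have h20 : ∀ j < 1531, RefE A (entry T4_13.T j) :=
    chunk_4_13 T C4_13.chk19 C4_13.len19 h19
  have h21 : ∀ j < 1603, RefE A (entry T4_13.T j) :=
    chunk_4_13 T C4_13.chk20 C4_13.len20 h20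
  have h22 : ∀ j < 1633, RefE A (entry T4_13.T j) :=
    chunk_4_13 T C4_13.chk21 C4_13.len21 h21
  have h23 : ∀ j < 1704, RefE A (entry T4_13.T j) :=
    chunk_4_13 T C4_13.chk22 C4_13.len22 h22
  have h24 : ∀ j < 1802, RefE A (entry T4_13.T j) :=
    chunk_4_13 T C4_13.chk23 C4_13.len23 h23
  have h25 : ∀ j < 1870, RefE A (entry T4_13.T j) :=
    chunk_4_13 T C4_13.chk24 C4_13.len24 h24
  have h26 : ∀ j < 1942, RefE A (entry T4_13.T j) :=
    chunk_4_13 T C4_13.chk25 C4_13.len25 h25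
  have h27 : ∀ j < 2029, RefE A (entry T4_13.T j) :=
    chunk_4_13 T C4_13.chk26 C4_13.len26 h26
  have h28 : ∀ j < 2149, RefE A (entry T4_13.T j) :=
    chunk_4_13 T C4_13.chk27 C4_13.len27 h27
  have h29 : ∀ j < 2242, RefE A (entry T4_13.T j) :=
    chunk_4_13 T C4_13.chk28 C4_13.len28 h28
  have h30 : ∀ j < 2312, RefE A (entry T4_13.T j) :=
    chunk_4_13 T C4_13.chk29 C4_13.len29 h29
  have h31 : ∀ j < 2411, RefE A (entry T4_13.T j) :=
    chunk_4_13 T C4_13.chk30 C4_13.len30 h30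
  have h32 : ∀ j < 2478, RefE A (entry T4_13.T j) :=
    chunk_4_13 T C4_13.chk31 C4_13.len31 h31
  have h33 : ∀ j < 2564, RefE A (entry T4_13.T j) :=
    chunk_4_13 T C4_13.chk32 C4_13.len32 h32
  have h34 : ∀ j < 2640, RefE A (entry T4_13.T j) :=
    chunk_4_13 T C4_13.chk33 C4_13.len33 h33
  have h35 : ∀ j < 2715, RefE A (entry T4_13.T j) :=
    chunk_4_13 T C4_13.chk34 C4_13.len34 h34
  have h36 : ∀ j < 2810, RefE A (entry T4_13.T j) :=
    chunk_4_13 T C4_13.chk35 C4_13.len35 h35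
  have h37 : ∀ j < 2883, RefE A (entry T4_13.T j) :=
    chunk_4_13 T C4_13.chk36 C4_13.len36 h36
  have h38 : ∀ j < 2949, RefE A (entry T4_13.T j) :=
    chunk_4_13 T C4_13.chk37 C4_13.len37 h37
  have h39 : ∀ j < 3022, RefE A (entry T4_13.T j) :=
    chunk_4_13 T C4_13.chk38 C4_13.len38 h38
  have h40 : ∀ j < 3085, RefE A (entry T4_13.T j) :=
    chunk_4_13 T C4_13.chk39 C4_13.len39 h39
  have h41 : ∀ j < 3107, RefE A (entry T4_13.T j) :=
    chunk_4_13 T C4_13.chk40 C4_13.len40 h40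
  have h42 : ∀ j < 3148, RefE A (entry T4_13.T j) :=
    chunk_4_13 T C4_13.chk41 C4_13.len41 h41
  have h43 : ∀ j < 3194, RefE A (entry T4_13.T j) :=
    chunk_4_13 T C4_13.chk42 C4_13.len42 h42
  have h44 : ∀ j < 3227, RefE A (entry T4_13.T j) :=
    chunk_4_13 T C4_13.chk43 C4_13.len43 h43
  have h45 : ∀ j < 3290, RefE A (entry T4_13.T j) :=
    chunk_4_13 T C4_13.chk44 C4_13.len44 h44
  have h46 : ∀ j < 3341, RefE A (entry T4_13.T j) :=
    chunk_4_13 T C4_13.chk45 C4_13.len45 h45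
  have h47 : ∀ j < 3431, RefE A (entry T4_13.T j) :=
    chunk_4_13 T C4_13.chk46 C4_13.len46 h46
  have h48 : ∀ j < 3493, RefE A (entry T4_13.T j) :=
    chunk_4_13 T C4_13.chk47 C4_13.len47 h47
  have h49 : ∀ j < 3570, RefE A (entry T4_13.T j) :=
    chunk_4_13 T C4_13.chk48 C4_13.len48 h48
  have h50 : ∀ j < 3644, RefE A (entry T4_13.T j) :=
    chunk_4_13 T C4_13.chk49 C4_13.len49 h49
  have h51 : ∀ j < 3684, RefE A (entry T4_13.T j) :=
    chunk_4_13 T C4_13.chk50 C4_13.len50 h50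
  have h52 : ∀ j < 3765, RefE A (entry T4_13.T j) :=
    chunk_4_13 T C4_13.chk51 C4_13.len51 h51
  have h53 : ∀ j < 3823, RefE A (entry T4_13.T j) :=
    chunk_4_13 T C4_13.chk52 C4_13.len52 h52
  have h54 : ∀ j < 3916, RefE A (entry T4_13.T j) :=
    chunk_4_13 T C4_13.chk53 C4_13.len53 h53
  have h55 : ∀ j < 4010, RefE A (entry T4_13.T j) :=
    chunk_4_13 T C4_13.chk54 C4_13.len54 h54
  exact final_false T4_13.T 4009 (h55 4009 (by norm_num)) last_4_13

end Pool.Agent.helper83.NutSmall2
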