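/-!
# The checker of the search for small nut graphs

A goal is one natural number `g = X * 2 ^ 69 + D * 32 + s`: `s` vertices `0..s-1`, missing degrees
`D = ∑ 16 ^ u * (k - deg u)` and the adjacency matrix `X = ∑ 2^(256 u + 16 w)` over ordered
adjacent pairs.
-/

set_option autoImplicit false

namespace Pool.Agent.helper83.NutSmall2

/-- row `u` of the goal `g` -/
def row (g u : Nat) : Nat :=
  Nat.mod (Nat.shiftRight g (Nat.add (Nat.mul 256 u) 69))
    115792089237316195423570985008687907853269984665640564039457584007913129639936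

/-- digit `w` of a row -/
def dig (R w : Nat) : Nat := Nat.mod (Nat.shiftRight R (Nat.mul 16 w)) 65536

/-- force the evaluation of a number -/
noncomputable def force {α : Type} (x : Nat) (f : Nat → α) : α :=
  Nat.rec (motive := fun _ => α) (f 0) (fun m _ => f (Nat.succ m)) x

/-- add the edge `u w` between old vertices -/
def addE (g u w : Nat) : Nat :=
  Nat.sub
    (Nat.add (Nat.add g (Nat.shiftLeft 1 (Nat.add (Nat.mul 256 u) (Nat.add (Nat.mul 16 w) 69))))
      (Nat.shiftLeft 1 (Nat.add (Nat.mul 256 w) (Nat.add (Nat.mul 16 u) 69))))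
    (Nat.add (Nat.shiftLeft 32 (Nat.mul 4 u)) (Nat.shiftLeft 32 (Nat.mul 4 w)))

/-- add a fresh vertex `w` adjacent to `v` -/
def addV (k g v w : Nat) : Nat :=
  Nat.sub
    (Nat.add
      (Nat.add (Nat.add g (Nat.shiftLeft 1 (Nat.add (Nat.mul 256 v) (Nat.add (Nat.mul 16 w) 69))))
        (Nat.shiftLeft 1 (Nat.add (Nat.mul 256 w) (Nat.add (Nat.mul 16 v) 69))))
      (Nat.add 1 (Nat.shiftLeft (Nat.mul 32 (Nat.sub k 1)) (Nat.mul 4 w))))
    (Nat.shiftLeft 32 (Nat.mul 4 v))

/-- add `r` fresh vertices adjacent to `v` -/
noncomputable def fresh (k v s r g : Nat) : Nat :=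
  Nat.rec (motive := fun _ => Nat) g (fun i ih => addV k ih v (Nat.add s i)) r

/-- the children of a goal at the vertex `v`: `D` describes the incomplete old vertices still to
be considered, `v` still misses `r` neighbours; `R` is the row of `v`. -/
noncomputable def expand (k n v s R j : Nat) : Nat → Nat → Nat → List Nat → List Nat :=
  Nat.rec (motive := fun _ => Nat → Nat → Nat → List Nat → List Nat)
    (fun _ _ g acc => List.cons g acc)
    (fun _ ih D r g acc =>
      Nat.rec (motive := fun _ => List Nat) (List.cons g acc)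
        (fun r' _ =>
          Bool.rec (motive := fun _ => List Nat)
            (Bool.rec (motive := fun _ => List Nat)
              (ih (Nat.mod D (Nat.shiftLeft 1 (Nat.mul 4 (Nat.shiftRight (Nat.log2 D) 2))))
                (Nat.succ r') g acc)
              (ih (Nat.mod D (Nat.shiftLeft 1 (Nat.mul 4 (Nat.shiftRight (Nat.log2 D) 2)))) r'
                (addE g v (Nat.shiftRight (Nat.log2 D) 2))
                (ih (Nat.mod D (Nat.shiftLeft 1 (Nat.mul 4 (Nat.shiftRight (Nat.log2 D) 2))))
                  (Nat.succ r') g acc))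
              (Nat.beq (dig R (Nat.shiftRight (Nat.log2 D) 2)) 0))
            (Bool.rec (motive := fun _ => List Nat) acc
              (List.cons (fresh k v s (Nat.succ r') g) acc)
              (Nat.ble (Nat.add s (Nat.succ r')) n))
            (Nat.beq D 0)) r) j

/-- add `m` rows with coefficients; entries `v + 16 y` of 14 bits in the code `c`. -/
noncomputable def comb (k g m : Nat) : Nat → Nat → (Nat → Nat → Bool) → Bool :=
  Nat.rec (motive := fun _ => Nat → Nat → (Nat → Nat → Bool) → Bool)
    (fun c acc K => K c acc)
    (fun _ ih c acc K =>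
      Bool.rec (motive := fun _ => Bool) false
        (ih (Nat.shiftRight c 14)
          (Nat.add acc (Nat.mul (Nat.mod (Nat.shiftRight c 4) 1024) (row g (Nat.mod c 16)))) K)
        (Nat.beq (Nat.mod (row g (Nat.mod c 16)) 65535) k)) m

/-- the same with a second accumulator recording the coefficients. -/
noncomputable def comb2 (k g m : Nat) : Nat → Nat → Nat → (Nat → Nat → Nat → Bool) → Bool :=
  Nat.rec (motive := fun _ => Nat → Nat → Nat → (Nat → Nat → Nat → Bool) → Bool)
    (fun c acc p K => K c acc p)
    (fun _ ih c acc p K =>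
      Bool.rec (motive := fun _ => Bool) false
        (ih (Nat.shiftRight c 14)
          (Nat.add acc (Nat.mul (Nat.mod (Nat.shiftRight c 4) 1024) (row g (Nat.mod c 16))))
          (Nat.add p (Nat.shiftLeft (Nat.mod (Nat.shiftRight c 4) 1024)
            (Nat.mul 16 (Nat.mod c 16)))) K)
        (Nat.beq (Nat.mod (row g (Nat.mod c 16)) 65535) k)) m

/-- all digits 1 below `n` -/
def ones (n : Nat) : Nat := Nat.div (Nat.sub (Nat.pow 65536 n) 1) 65535

/-- the final comparison of `lin` -/
noncomputable def linB (k g m2 o2 a b A1 : Nat) (n c1 : Nat) (K : Nat → Bool) : Bool :=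
  comb k g m2 c1
    (Nat.add (Nat.mul o2 (ones n)) (Nat.shiftLeft b (Nat.mul 16 a)))
    fun c2 A2 => Bool.rec (motive := fun _ => Bool) false (K c2) (Nat.beq A1 A2)

/-- a linear combination of complete rows (and the all-ones row if `s = n`) is a positive
multiple of a unit vector; then `K` of the remaining code. -/
noncomputable def lin (k n g c : Nat) (K : Nat → Bool) : Bool :=
  Bool.rec (motive := fun _ => Bool)
    (Bool.rec (motive := fun _ => Bool) false
      (Bool.rec (motive := fun _ => Bool)
        (Bool.rec (motive := fun _ => Bool) false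
          (comb k g (Nat.mod c 16) (Nat.shiftRight c 42) 0 fun c1 A1 =>
            linB k g (Nat.mod (Nat.shiftRight c 4) 16) 0 (Nat.mod (Nat.shiftRight c 28) 16)
              (Nat.mod (Nat.shiftRight c 32) 1024) A1 n c1 K)
          (Nat.beq (Nat.mod (Nat.shiftRight c 8) 1048576) 0))
        (comb k g (Nat.mod c 16) (Nat.shiftRight c 42)
            (Nat.mul (Nat.mod (Nat.shiftRight c 8) 1024) (ones n)) fun c1 A1 =>
          linB k g (Nat.mod (Nat.shiftRight c 4) 16) (Nat.mod (Nat.shiftRight c 18) 1024)
            (Nat.mod (Nat.shiftRight c 28) 16) (Nat.mod (Nat.shiftRight c 32) 1024) A1 n c1 K)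
        (Nat.beq (Nat.mod g 32) n))
      (Nat.ble (Nat.succ (Nat.mod (Nat.shiftRight c 28) 16)) (Nat.mod g 32)))
    false
    (Nat.beq (Nat.mod (Nat.shiftRight c 32) 1024) 0)

/-- a kernel vector with a zero coordinate -/
noncomputable def dep (k n g c : Nat) (K : Nat → Bool) : Bool :=
  comb2 k g (Nat.mod c 16) (Nat.shiftRight c 12) 0 0 fun c1 A1 P1 =>
    comb2 k g (Nat.mod (Nat.shiftRight c 4) 16) c1 0 0 fun c2 A2 P2 =>
      Bool.rec (motive := fun _ => Bool) false
        (Bool.rec (motive := fun _ => Bool)
          (Bool.rec (motive := fun _ => Bool) (K c2)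
            (Bool.rec (motive := fun _ => Bool) false
              (Bool.rec (motive := fun _ => Bool) false (K c2)
                (Nat.beq (dig P1 (Nat.mod (Nat.shiftRight c 8) 16))
                  (dig P2 (Nat.mod (Nat.shiftRight c 8) 16))))
              (Nat.ble (Nat.succ (Nat.mod (Nat.shiftRight c 8) 16)) n))
            (Nat.ble n (Nat.mod g 32)))
          false
          (Nat.beq P1 P2)) (Nat.beq A1 A2)

/-- all `m` edges of the edge code `e` are mapped to edges of `X` by `p`; entries of `e`:
`4 a + 64 * 4 b`. -/
noncomputable def embEdges (X p m : Nat) : Nat → Bool :=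
  Nat.rec (motive := fun _ => Nat → Bool) (fun _ => true)
    (fun _ ih e =>
      Bool.rec (motive := fun _ => Bool) false
        (ih (Nat.shiftRight e 12))
        (Nat.beq (Nat.mod (Nat.shiftRight X (Nat.add
          (Nat.mul 256 (Nat.mod (Nat.shiftRight p (Nat.mod e 64)) 16))
          (Nat.mul 16 (Nat.mod (Nat.shiftRight p (Nat.mod (Nat.shiftRight e 6) 64)) 16)))) 2) 1)) m

/-- `p` is injective on the first `j` numbers, with values below `s`; `M` is the set of values
already used. -/
noncomputable def embInj (s j : Nat) : Nat → Nat → Bool :=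
  Nat.rec (motive := fun _ => Nat → Nat → Bool) (fun _ _ => true)
    (fun _ ih p M =>
      Bool.rec (motive := fun _ => Bool) false
        (Bool.rec (motive := fun _ => Bool) false
          (ih (Nat.shiftRight p 4) (Nat.add M (Nat.shiftLeft 1 (Nat.mod p 16))))
          (Nat.beq (Nat.mod (Nat.shiftRight M (Nat.mod p 16)) 2) 0))
        (Nat.ble (Nat.succ (Nat.mod p 16)) s)) j

/-- entry `i` of the table: `s + 32 m + 2048 e`; the table is cut into blocks of 64 entries. -/
def entry (T : Nat → Nat) (i : Nat) : Nat :=
  Nat.mod (Nat.shiftRight (T (Nat.shiftRight i 6)) (Nat.mul 400 (Nat.mod i 64))) (Nat.pow 2 400)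

/-- a table state `E` embeds by `p` -/
noncomputable def embB (g p E : Nat) (b : Bool) : Bool :=
  Bool.rec (motive := fun _ => Bool) false
    (Bool.rec (motive := fun _ => Bool) false b
      (embEdges (Nat.shiftRight g 69) p (Nat.mod (Nat.shiftRight E 5) 64) (Nat.shiftRight E 11)))
    (embInj (Nat.mod g 32) (Nat.mod E 32) p 0)

/-- a table state embeds -/
noncomputable def emb (T : Nat → Nat) (i0 g c : Nat) (K : Nat → Bool) : Bool :=
  Bool.rec (motive := fun _ => Bool) false
    (embB g (Nat.mod (Nat.shiftRight c 16) 18446744073709551616) (entry T (Nat.mod c 65536))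
      (K (Nat.shiftRight c 80)))
    (Nat.ble (Nat.succ (Nat.mod c 65536)) i0)

/-- the children of `g` at `v` -/
noncomputable def br (k n g v : Nat) (st : List Nat) : List Nat :=
  expand k n v (Nat.mod g 32) (row g v) 17
    (Nat.sub (Nat.mod (Nat.shiftRight g 5) 18446744073709551616)
      (Nat.shiftLeft (Nat.sub k (Nat.mod (row g v) 65535)) (Nat.mul 4 v)))
    (Nat.sub k (Nat.mod (row g v) 65535)) g st

/-- one token -/
noncomputable def step (k n : Nat) (T : Nat → Nat) (i0 g c : Nat) (st : List Nat)
    (K : Nat → List Nat → Bool) : Bool :=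
  Bool.rec (motive := fun _ => Bool)
    (Bool.rec (motive := fun _ => Bool)
      (Bool.rec (motive := fun _ => Bool)
        (emb T i0 g (Nat.shiftRight c 2) fun c' => K c' st)
        (dep k n g (Nat.shiftRight c 2) fun c' => K c' st)
        (Nat.beq (Nat.mod c 4) 2))
      (lin k n g (Nat.shiftRight c 2) fun c' => K c' st)
      (Nat.beq (Nat.mod c 4) 1))
    (Bool.rec (motive := fun _ => Bool) false
      (K (Nat.shiftRight c 6) (br k n g (Nat.mod (Nat.shiftRight c 2) 16) st))
      (Nat.ble (Nat.succ (Nat.mod (Nat.shiftRight c 2) 16)) (Nat.mod g 32)))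
    (Nat.beq (Nat.mod c 4) 0)

/-- run at most `fuel` tokens -/
noncomputable def run (k n : Nat) (T : Nat → Nat) (i0 fuel : Nat) : Nat → List Nat → Bool :=
  Nat.rec (motive := fun _ => Nat → List Nat → Bool)
    (fun _ st => List.rec (motive := fun _ => Bool) true (fun _ _ _ => false) st)
    (fun _ ih c st =>
      List.rec (motive := fun _ => Bool) true
        (fun g st' _ => force c fun c => force g fun g => step k n T i0 g c st' ih) st) fuel

/-- build the goal of an edge code (no repeated edges, codes divisible by 4) -/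
noncomputable def mk (m : Nat) : Nat → Nat → (Nat → Bool) → Bool :=
  Nat.rec (motive := fun _ => Nat → Nat → (Nat → Bool) → Bool) (fun _ g K => K g)
    (fun _ ih e g K =>
      force g fun g =>
      Bool.rec (motive := fun _ => Bool) false
        (Bool.rec (motive := fun _ => Bool) false
          (Bool.rec (motive := fun _ => Bool)
            (Bool.rec (motive := fun _ => Bool) false
              (Bool.rec (motive := fun _ => Bool) false
                (Bool.rec (motive := fun _ => Bool) false
                  (ih (Nat.shiftRight e 12)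
                    (addE g (Nat.div (Nat.mod e 64) 4)
                      (Nat.div (Nat.mod (Nat.shiftRight e 6) 64) 4)) K)
                  (Nat.beq (Nat.mod (Nat.shiftRight e 6) 4) 0))
                (Nat.beq (Nat.mod e 4) 0))
              (Nat.beq (dig (row g (Nat.div (Nat.mod e 64) 4))
                (Nat.div (Nat.mod (Nat.shiftRight e 6) 64) 4)) 0)) false
            (Nat.beq (Nat.div (Nat.mod e 64) 4) (Nat.div (Nat.mod (Nat.shiftRight e 6) 64) 4)))
          (Nat.ble (Nat.succ (Nat.div (Nat.mod (Nat.shiftRight e 6) 64) 4)) (Nat.mod g 32)))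
        (Nat.ble (Nat.succ (Nat.div (Nat.mod e 64) 4)) (Nat.mod g 32))) m

/-- the empty graph on `s` vertices as a goal -/
def start (k s : Nat) : Nat :=
  Nat.add s (Nat.mul (Nat.mul 32 k) (Nat.div (Nat.sub (Nat.pow 16 s) 1) 15))

/-- choose by the bit `b` of `i` -/
noncomputable def sel (i b x y : Nat) : Nat :=
  Bool.rec (motive := fun _ => Nat) y x (Nat.beq (Nat.mod (Nat.shiftRight i b) 2) 0)

/-- check the states `i, i+1, ...` of the table; each certificate is `fuel + 4096 * code`. -/
noncomputable def checkFrom (k n : Nat) (T : Nat → Nat) (l : List Nat) : Nat → Bool :=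
  List.rec (motive := fun _ => Nat → Bool) (fun _ => true)
    (fun c _ ih i =>
      force (entry T i) fun E =>
      Bool.rec (motive := fun _ => Bool) false
        (mk (Nat.mod (Nat.shiftRight E 5) 64) (Nat.shiftRight E 11) (start k (Nat.mod E 32))
          fun g =>
            Bool.rec (motive := fun _ => Bool) false (ih (Nat.succ i))
              (run k n T i (Nat.mod c 4096) (Nat.shiftRight c 12) (List.cons g List.nil)))
        (Nat.ble (Nat.mod E 32) 16)) l

end Pool.Agent.helper83.NutSmall2
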