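import Mathlib
import Pool.Agent.helper83.NutSmall.Check

/-!
# Arithmetic of the packed goals
-/

set_option autoImplicit false

namespace Pool.Agent.helper83.NutSmall2

open Finset

/-- digit sums -/
def dsum (B N : ℕ) (d : ℕ → ℕ) : ℕ := ∑ i ∈ range N, d i * B ^ i

theorem dsum_succ' (B N : ℕ) (d : ℕ → ℕ) :
    dsum B (N + 1) d = d 0 + B * dsum B N (fun i => d (i + 1)) := by
  unfold dsum
  rw [Finset.sum_range_succ', pow_zero, mul_one, add_comm, Finset.mul_sum]
  congr 1
  refine Finset.sum_congr rfl fun i _ => ?_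
  rw [pow_succ]
  ring

theorem dsum_lt (B : ℕ) (hB : 0 < B) : ∀ (N : ℕ) (d : ℕ → ℕ), (∀ i < N, d i < B) → dsum B N d < B ^ N := by
  intro N
  induction N with
  | zero => intro d _; simp [dsum]
  | succ N ih =>
    intro d hd
    rw [dsum_succ']
    have h1 := ih (fun i => d (i + 1)) (fun i hi => hd (i + 1) (by omega))
    have h2 := hd 0 (by omega)
    calc d 0 + B * dsum B N (fun i => d (i + 1)) < B + B * dsum B N (fun i => d (i + 1)) := by omega
      _ = B * (dsum B N (fun i => d (i + 1)) + 1) := by ring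
      _ ≤ B * B ^ N := Nat.mul_le_mul_left _ h1
      _ = B ^ (N + 1) := by rw [pow_succ]; ring

theorem dsum_digit (B : ℕ) (hB : 0 < B) : ∀ (j N : ℕ) (d : ℕ → ℕ), (∀ i < N, d i < B) → j < N →
    dsum B N d / B ^ j % B = d j := by
  intro j
  induction j with
  | zero =>
    intro N d hd hj
    obtain ⟨N, rfl⟩ : ∃ M, N = M + 1 := ⟨N - 1, by omega⟩
    rw [dsum_succ', pow_zero, Nat.div_one, Nat.add_mul_mod_self_left]
    exact Nat.mod_eq_of_lt (hd 0 (by omega))
  | succ j ih =>
    intro N d hd hj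
    obtain ⟨N, rfl⟩ : ∃ M, N = M + 1 := ⟨N - 1, by omega⟩
    have h0 := hd 0 (by omega)
    rw [dsum_succ', pow_succ', ← Nat.div_div_eq_div_mul, Nat.add_mul_div_left _ _ hB,
      Nat.div_eq_of_lt h0, zero_add]
    exact ih N _ (fun i hi => hd (i + 1) (by omega)) (by omega)

theorem dsum_inj (B : ℕ) (hB : 0 < B) (N : ℕ) (d e : ℕ → ℕ) (hd : ∀ i < N, d i < B)
    (he : ∀ i < N, e i < B) (h : dsum B N d = dsum B N e) : ∀ i < N, d i = e i := by
  intro i hi
  rw [← dsum_digit B hB i N d hd hi, h, dsum_digit B hB i N e he hi]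

theorem dsum_split (B N j : ℕ) (d : ℕ → ℕ) (hj : j ≤ N) :
    dsum B N d = dsum B j d + B ^ j * dsum B (N - j) (fun i => d (j + i)) := by
  unfold dsum
  obtain ⟨m, rfl⟩ := Nat.exists_eq_add_of_le hj
  rw [Finset.sum_range_add, Finset.mul_sum, Nat.add_sub_cancel_left]
  congr 1
  refine Finset.sum_congr rfl fun i _ => ?_
  rw [pow_add]
  ring

theorem dsum_mod (B : ℕ) (hB : 0 < B) (N j : ℕ) (d : ℕ → ℕ) (hj : j ≤ N) (hd : ∀ i < N, d i < B) :
    dsum B N d % B ^ j = dsum B j d := by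
  rw [dsum_split B N j d hj, Nat.add_mul_mod_self_left]
  exact Nat.mod_eq_of_lt (dsum_lt B hB j d fun i hi => hd i (by omega))

/-- 0/1 value -/
def bb (b : Bool) : ℕ := if b = true then 1 else 0

theorem bb_le (b : Bool) : bb b ≤ 1 := by unfold bb; split_ifs <;> omega

theorem bb_true : bb true = 1 := rfl
theorem bb_false : bb false = 0 := rfl

/-- row of a graph as a number -/
def rw' (G : ℕ → ℕ → Bool) (u : ℕ) : ℕ := dsum 65536 16 (fun w => bb (G u w))

/-- degree -/
def deg (G : ℕ → ℕ → Bool) (u : ℕ) : ℕ := ∑ w ∈ range 16, bb (G u w)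

/-- matrix of a graph as a number -/
def XG (G : ℕ → ℕ → Bool) : ℕ := dsum (2 ^ 256) 16 (rw' G)

/-- missing degrees -/
def DG (k s : ℕ) (G : ℕ → ℕ → Bool) : ℕ := dsum 16 s (fun u => k - deg G u)

/-- the number of a goal -/
def code (k s : ℕ) (G : ℕ → ℕ → Bool) : ℕ := XG G * 2 ^ 69 + (DG k s G * 32 + s)

theorem rw_lt (G : ℕ → ℕ → Bool) (u : ℕ) : rw' G u < 2 ^ 256 := by
  have h := dsum_lt 65536 (by norm_num) 16 (fun w => bb (G u w))
    (fun i _ => lt_of_le_of_lt (bb_le _) (by norm_num))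
  have h2 : (65536 : ℕ) ^ 16 = 2 ^ 256 := by norm_num
  rw [← h2]
  exact h

theorem DG_lt (k s : ℕ) (G : ℕ → ℕ → Bool) (hk : k < 16) (hs : s ≤ 16) : DG k s G < 2 ^ 64 := by
  have h := dsum_lt 16 (by norm_num) s (fun u => k - deg G u) (fun i _ => by
    show k - deg G i < 16
    omega)
  have h2 : (16 : ℕ) ^ s ≤ 16 ^ 16 := Nat.pow_le_pow_right (by norm_num) hs
  have h3 : (16 : ℕ) ^ 16 = 2 ^ 64 := by norm_num
  unfold DG
  omega

theorem low_lt (k s : ℕ) (G : ℕ → ℕ → Bool) (hk : k < 16) (hs : s ≤ 16) :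
    DG k s G * 32 + s < 2 ^ 69 := by
  have h := DG_lt k s G hk hs
  have h3 : (2 : ℕ) ^ 69 = 2 ^ 64 * 32 := by norm_num
  omega

theorem code_div (k s : ℕ) (G : ℕ → ℕ → Bool) (hk : k < 16) (hs : s ≤ 16) :
    code k s G / 2 ^ 69 = XG G := by
  unfold code
  rw [Nat.mul_comm, Nat.mul_add_div (by positivity), Nat.div_eq_of_lt (low_lt k s G hk hs), add_zero]

theorem code_mod32 (k s : ℕ) (G : ℕ → ℕ → Bool) (hs : s ≤ 16) : code k s G % 32 = s := by
  unfold code
  have h3 : XG G * 2 ^ 69 = 32 * (XG G * 2 ^ 64) := by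
    have : (2 : ℕ) ^ 69 = 32 * 2 ^ 64 := by norm_num
    rw [this]; ring
  rw [h3]
  omega

theorem code_D (k s : ℕ) (G : ℕ → ℕ → Bool) (hk : k < 16) (hs : s ≤ 16) :
    code k s G / 32 % 2 ^ 64 = DG k s G := by
  unfold code
  have h3 : XG G * 2 ^ 69 = 32 * (XG G * 2 ^ 64) := by
    have : (2 : ℕ) ^ 69 = 32 * 2 ^ 64 := by norm_num
    rw [this]; ring
  have h := DG_lt k s G hk hs
  have h4 : (XG G * 2 ^ 69 + (DG k s G * 32 + s)) / 32 = DG k s G + 2 ^ 64 * XG G := by
    rw [h3, show 32 * (XG G * 2 ^ 64) + (DG k s G * 32 + s) = s + 32 * (DG k s G + 2 ^ 64 * XG G)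
      by ring, Nat.add_mul_div_left _ _ (by norm_num), Nat.div_eq_of_lt (by omega), zero_add]
  rw [h4, Nat.add_mul_mod_self_left, Nat.mod_eq_of_lt h]

theorem row_code (k s : ℕ) (G : ℕ → ℕ → Bool) (hk : k < 16) (hs : s ≤ 16) (u : ℕ) (hu : u < 16) :
    row (code k s G) u = rw' G u := by
  show (code k s G >>> (256 * u + 69)) % _ = _
  have h1 : (115792089237316195423570985008687907853269984665640564039457584007913129639936 : ℕ) =
    2 ^ 256 := by norm_num
  rw [h1, Nat.shiftRight_eq_div_pow, pow_add, Nat.mul_comm, ← Nat.div_div_eq_div_mul,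
    code_div k s G hk hs, pow_mul]
  exact dsum_digit (2 ^ 256) (by positivity) u 16 (rw' G) (fun i _ => rw_lt G i) hu

theorem dig_rw (G : ℕ → ℕ → Bool) (u w : ℕ) (hw : w < 16) : dig (rw' G u) w = bb (G u w) := by
  show (rw' G u >>> (16 * w)) % 65536 = _
  rw [Nat.shiftRight_eq_div_pow, pow_mul]
  have h1 : (2 : ℕ) ^ 16 = 65536 := by norm_num
  rw [h1]
  exact dsum_digit 65536 (by norm_num) w 16 (fun w => bb (G u w))
    (fun i _ => lt_of_le_of_lt (bb_le _) (by norm_num)) hw

theorem deg_le (G : ℕ → ℕ → Bool) (u : ℕ) : deg G u ≤ 16 := by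
  unfold deg
  calc ∑ w ∈ range 16, bb (G u w) ≤ ∑ w ∈ range 16, 1 := Finset.sum_le_sum fun w _ => bb_le _
    _ = 16 := by simp

theorem rw_mod (G : ℕ → ℕ → Bool) (u : ℕ) : rw' G u % 65535 = deg G u := by
  have h : rw' G u ≡ deg G u [MOD 65535] := by
    unfold rw' dsum deg
    refine Nat.ModEq.sum fun w _ => ?_
    have h1 : 65536 ^ w ≡ 1 ^ w [MOD 65535] := Nat.ModEq.pow w rfl
    have h2 := Nat.ModEq.mul_left (bb (G u w)) h1
    rw [one_pow, mul_one] at h2
    exact h2
  have h2 := deg_le G u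
  rw [h, Nat.mod_eq_of_lt (by omega)]

theorem XG_eq (G : ℕ → ℕ → Bool) :
    XG G = ∑ u ∈ range 16, ∑ w ∈ range 16, bb (G u w) * 2 ^ (256 * u + 16 * w) := by
  unfold XG rw' dsum
  refine Finset.sum_congr rfl fun u _ => ?_
  rw [Finset.sum_mul]
  refine Finset.sum_congr rfl fun w _ => ?_
  have h1 : (65536 : ℕ) = 2 ^ 16 := by norm_num
  rw [h1, ← pow_mul, ← pow_mul, mul_assoc, ← pow_add, add_comm]

/-- add an edge -/
def addG (G : ℕ → ℕ → Bool) (u w : ℕ) : ℕ → ℕ → Bool :=
  fun a b => G a b || (decide (a = u) && decide (b = w)) || (decide (a = w) && decide (b = u))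

theorem bb_addG (G : ℕ → ℕ → Bool) (u w : ℕ) (huw : u ≠ w) (h : G u w = false) (h' : G w u = false)
    (a b : ℕ) : bb (addG G u w a b) = bb (G a b) + (if a = u then (if b = w then 1 else 0) else 0) +
      (if a = w then (if b = u then 1 else 0) else 0) := by
  unfold addG
  by_cases h1 : a = u
  · by_cases h2 : b = w
    · have h3 : ¬ a = w := fun h3 => huw (h1.symm.trans h3)
      rw [if_pos h1, if_pos h2, if_neg h3, h1, h2, h]
      simp [bb]
    · rw [if_pos h1, if_neg h2]
      by_cases h3 : a = w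
      · exact absurd (h1.symm.trans h3) huw
      · rw [if_neg h3]
        simp [h2, h3]
  · rw [if_neg h1]
    by_cases h3 : a = w
    · by_cases h4 : b = u
      · rw [if_pos h3, if_pos h4, h3, h4, h']
        simp [bb]
      · rw [if_pos h3, if_neg h4]
        simp [h1, h4]
    · rw [if_neg h3]
      simp [h1, h3]

theorem sum_if (N u : ℕ) (hu : u < N) (f : ℕ → ℕ) :
    ∑ a ∈ range N, (if a = u then f a else 0) = f u := by
  rw [Finset.sum_ite_eq' (range N) u f, if_pos (mem_range.2 hu)]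

theorem sum_if2 (N u w : ℕ) (hu : u < N) (hw : w < N) (F : ℕ → ℕ → ℕ) :
    ∑ a ∈ range N, ∑ b ∈ range N, (if a = u then (if b = w then F a b else 0) else 0) = F u w := by
  have : ∀ a ∈ range N, (∑ b ∈ range N, (if a = u then (if b = w then F a b else 0) else 0)) =
      if a = u then F a w else 0 := by
    intro a _
    by_cases ha : a = u
    · simp only [if_pos ha]
      exact sum_if N w hw (fun b => F a b)
    · simp only [if_neg ha, Finset.sum_const_zero]
  rw [Finset.sum_congr rfl this]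
  exact sum_if N u hu (fun a => F a w)

theorem XG_addG_aux (N : ℕ) (G : ℕ → ℕ → Bool) (u w : ℕ) (huw : u ≠ w) (h : G u w = false)
    (h' : G w u = false) (hu : u < N) (hw : w < N) (F : ℕ → ℕ → ℕ) :
    ∑ a ∈ range N, ∑ b ∈ range N, bb (addG G u w a b) * F a b =
      (∑ a ∈ range N, ∑ b ∈ range N, bb (G a b) * F a b) + F u w + F w u := by
  have e : ∀ a b : ℕ, bb (addG G u w a b) * F a b =
      bb (G a b) * F a b +
        (if a = u then (if b = w then F a b else 0) else 0) +
        (if a = w then (if b = u then F a b else 0) else 0) := by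
    intro a b
    rw [bb_addG G u w huw h h']
    split_ifs <;> ring
  simp only [e]
  simp only [Finset.sum_add_distrib]
  rw [sum_if2 N u w hu hw F, sum_if2 N w u hw hu F]

theorem XG_addG (G : ℕ → ℕ → Bool) (u w : ℕ) (huw : u ≠ w) (h : G u w = false) (h' : G w u = false)
    (hu : u < 16) (hw : w < 16) :
    XG (addG G u w) = XG G + 2 ^ (256 * u + 16 * w) + 2 ^ (256 * w + 16 * u) := by
  rw [XG_eq, XG_eq]
  exact XG_addG_aux 16 G u w huw h h' hu hw (fun a b => 2 ^ (256 * a + 16 * b))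

theorem deg_addG_aux (N : ℕ) (G : ℕ → ℕ → Bool) (u w : ℕ) (huw : u ≠ w) (h : G u w = false)
    (h' : G w u = false) (hu : u < N) (hw : w < N) (a : ℕ) :
    ∑ b ∈ range N, bb (addG G u w a b) = (∑ b ∈ range N, bb (G a b)) + (if a = u then 1 else 0) +
      (if a = w then 1 else 0) := by
  simp only [bb_addG G u w huw h h', Finset.sum_add_distrib]
  congr 1
  · congr 1
    by_cases ha : a = u
    · simp only [if_pos ha]
      exact sum_if N w hw (fun _ => 1)
    · simp only [if_neg ha, Finset.sum_const_zero]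
  · by_cases ha : a = w
    · simp only [if_pos ha]
      exact sum_if N u hu (fun _ => 1)
    · simp only [if_neg ha, Finset.sum_const_zero]

theorem deg_addG (G : ℕ → ℕ → Bool) (u w : ℕ) (huw : u ≠ w) (h : G u w = false)
    (h' : G w u = false) (hu : u < 16) (hw : w < 16) (a : ℕ) :
    deg (addG G u w) a = deg G a + (if a = u then 1 else 0) + (if a = w then 1 else 0) :=
  deg_addG_aux 16 G u w huw h h' hu hw a

theorem dsum_succ (B N : ℕ) (d : ℕ → ℕ) : dsum B (N + 1) d = dsum B N d + d N * B ^ N :=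
  Finset.sum_range_succ _ _

theorem dsum_add (B N : ℕ) (d e : ℕ → ℕ) : dsum B N (fun i => d i + e i) = dsum B N d + dsum B N e := by
  unfold dsum
  rw [← Finset.sum_add_distrib]
  exact Finset.sum_congr rfl fun i _ => by rw [add_mul]

theorem dsum_if (B N u c : ℕ) (hu : u < N) : dsum B N (fun i => if i = u then c else 0) = c * B ^ u := by
  unfold dsum
  have : ∀ i ∈ range N, (if i = u then c else 0) * B ^ i = if i = u then c * B ^ i else 0 := by
    intro i _
    split_ifs
    · rfl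
    · rw [zero_mul]
  rw [Finset.sum_congr rfl this, sum_if N u hu (fun i => c * B ^ i)]

theorem dsum_congr (B N : ℕ) (d e : ℕ → ℕ) (h : ∀ i < N, d i = e i) : dsum B N d = dsum B N e := by
  unfold dsum
  exact Finset.sum_congr rfl fun i hi => by rw [h i (mem_range.1 hi)]

theorem addE_code (k s : ℕ) (G : ℕ → ℕ → Bool) (u w : ℕ) (huw : u ≠ w) (h : G u w = false)
    (h' : G w u = false) (hs : s ≤ 16) (hu : u < s) (hw : w < s) (hdu : deg G u < k)
    (hdw : deg G w < k) : addE (code k s G) u w = code k s (addG G u w) := by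
  have hD : DG k s G = DG k s (addG G u w) + 1 * 16 ^ u + 1 * 16 ^ w := by
    unfold DG
    rw [← dsum_if 16 s u 1 hu, ← dsum_if 16 s w 1 hw, ← dsum_add, ← dsum_add]
    refine dsum_congr _ _ _ _ fun i hi => ?_
    have h1 := deg_addG G u w huw h h' (by omega) (by omega) i
    by_cases h2 : i = u
    · have h3 : ¬ i = w := fun h3 => huw (h2.symm.trans h3)
      rw [if_pos h2, if_neg h3] at h1
      rw [if_pos h2, if_neg h3, h1, h2]
      omega
    · by_cases h3 : i = w
      · rw [if_neg h2, if_pos h3] at h1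
        rw [if_neg h2, if_pos h3, h1, h3]
        omega
      · rw [if_neg h2, if_neg h3] at h1
        rw [if_neg h2, if_neg h3, h1]
        omega
  have hX := XG_addG G u w huw h h' (by omega) (by omega)
  show (code k s G + 1 <<< (256 * u + (16 * w + 69)) + 1 <<< (256 * w + (16 * u + 69))) -
    (32 <<< (4 * u) + 32 <<< (4 * w)) = _
  rw [Nat.shiftLeft_eq, Nat.shiftLeft_eq, Nat.shiftLeft_eq, Nat.shiftLeft_eq, ← add_assoc,
    ← add_assoc, pow_add 2 _ 69, pow_add 2 _ 69, pow_mul 2 4 u, pow_mul 2 4 w]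
  refine Nat.sub_eq_of_eq_add ?_
  unfold code
  rw [hX, hD]
  have h16 : (2 : ℕ) ^ 4 = 16 := by norm_num
  rw [h16]
  ring

theorem deg_zero_of (G : ℕ → ℕ → Bool) (s : ℕ) (hsup : ∀ a b, G a b = true → a < s ∧ b < s) (a : ℕ)
    (ha : s ≤ a) : deg G a = 0 := by
  unfold deg
  refine Finset.sum_eq_zero fun b _ => ?_
  cases hb : G a b
  · rfl
  · exact absurd (hsup a b hb).1 (by omega)

theorem addV_code (k s : ℕ) (G : ℕ → ℕ → Bool) (v : ℕ) (hsup : ∀ a b, G a b = true → a < s ∧ b < s)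
    (hs : s < 16) (hv : v < s) (hdv : deg G v < k) :
    addV k (code k s G) v s = code k (s + 1) (addG G v s) := by
  have h : G v s = false := by
    cases hb : G v s
    · rfl
    · exact absurd (hsup _ _ hb).2 (by omega)
  have h' : G s v = false := by
    cases hb : G s v
    · rfl
    · exact absurd (hsup _ _ hb).1 (by omega)
  have hvs : v ≠ s := by omega
  have hlast : (k - deg (addG G v s) s) + (if s = v then 1 else 0) = k - 1 := by
    have h2 := deg_addG G v s hvs h h' (by omega) (by omega) s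
    rw [if_neg hvs.symm, if_pos rfl, deg_zero_of G s hsup s le_rfl] at h2
    rw [h2, if_neg hvs.symm]
    omega
  have hold : ∀ i < s, (k - deg (addG G v s) i) + (if i = v then 1 else 0) = k - deg G i := by
    intro i hi'
    have h1 := deg_addG G v s hvs h h' (by omega) (by omega) i
    have h3 : ¬ i = s := by omega
    rw [if_neg h3, add_zero] at h1
    by_cases h4 : i = v
    · rw [if_pos h4] at h1
      rw [if_pos h4, h1, h4]
      omega
    · rw [if_neg h4] at h1
      rw [if_neg h4, h1]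
      omega
  have hD : DG k s G + (k - 1) * 16 ^ s = DG k (s + 1) (addG G v s) + 1 * 16 ^ v := by
    unfold DG
    rw [← dsum_if 16 (s + 1) v 1 (by omega), ← dsum_add, dsum_succ, hlast,
      dsum_congr 16 s _ _ hold]
  have hX := XG_addG G v s hvs h h' (by omega) (by omega)
  show (code k s G + 1 <<< (256 * v + (16 * s + 69)) + 1 <<< (256 * s + (16 * v + 69)) +
    (1 + (32 * (k - 1)) <<< (4 * s))) - 32 <<< (4 * v) = _
  have h16 : (2 : ℕ) ^ 4 = 16 := by norm_num
  have e1 : (2 : ℕ) ^ (256 * v + (16 * s + 69)) = 2 ^ (256 * v + 16 * s) * 2 ^ 69 := by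
    rw [← pow_add, add_assoc]
  have e2 : (2 : ℕ) ^ (256 * s + (16 * v + 69)) = 2 ^ (256 * s + 16 * v) * 2 ^ 69 := by
    rw [← pow_add, add_assoc]
  rw [Nat.shiftLeft_eq, Nat.shiftLeft_eq, Nat.shiftLeft_eq, Nat.shiftLeft_eq, e1, e2,
    pow_mul 2 4 s, pow_mul 2 4 v, h16]
  refine Nat.sub_eq_of_eq_add ?_
  unfold code
  rw [hX]
  have : DG k s G * 32 + 32 * (k - 1) * 16 ^ s = DG k (s + 1) (addG G v s) * 32 + 32 * 16 ^ v := by
    have := congrArg (fun t => t * 32) hD
    simp only [add_mul] at this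
    linarith
  linarith

/-- the position of the top digit -/
theorem log_digit (t D : ℕ) (d : ℕ → ℕ) (hd : ∀ i < t, d i < 16) (hD : D = dsum 16 t d)
    (h0 : D ≠ 0) : D.log2 / 4 < t ∧ d (D.log2 / 4) ≠ 0 ∧ ∀ u < t, D.log2 / 4 < u → d u = 0 := by
  have h1 : 2 ^ D.log2 ≤ D := Nat.log2_self_le h0
  have h2 : D < 2 ^ (D.log2 + 1) := Nat.lt_log2_self
  set m := D.log2 / 4 with hm
  have h3 : 16 ^ m ≤ D := by
    refine le_trans ?_ h1
    have : (16 : ℕ) ^ m = 2 ^ (4 * m) := by rw [pow_mul]; norm_num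
    rw [this]
    exact Nat.pow_le_pow_right (by norm_num) (by omega)
  have h4 : D < 16 ^ (m + 1) := by
    refine lt_of_lt_of_le h2 ?_
    have : (16 : ℕ) ^ (m + 1) = 2 ^ (4 * (m + 1)) := by rw [pow_mul]; norm_num
    rw [this]
    exact Nat.pow_le_pow_right (by norm_num) (by omega)
  have h5 : m < t := by
    by_contra h5
    have h6 := dsum_lt 16 (by norm_num) t d hd
    rw [← hD] at h6
    have h7 : (16 : ℕ) ^ t ≤ 16 ^ m := Nat.pow_le_pow_right (by norm_num) (by omega)
    omega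
  have h6 : ∀ u < t, m < u → d u = 0 := by
    intro u hu hmu
    by_contra hne
    have h7 : 16 ^ u ≤ D := by
      rw [hD]
      unfold dsum
      refine le_trans ?_ (Finset.single_le_sum (f := fun i => d i * 16 ^ i)
        (fun i _ => Nat.zero_le _) (mem_range.2 hu))
      exact Nat.le_mul_of_pos_left _ (Nat.pos_of_ne_zero hne)
    have h8 : (16 : ℕ) ^ (m + 1) ≤ 16 ^ u := Nat.pow_le_pow_right (by norm_num) (by omega)
    omega
  refine ⟨h5, ?_, h6⟩
  intro h7
  have h8 : D = dsum 16 m d := by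
    rw [hD]
    unfold dsum
    symm
    refine Finset.sum_subset (by
      intro i hi
      rw [mem_range] at hi ⊢
      omega) fun i hi hi' => ?_
    rw [mem_range] at hi hi'
    rcases Nat.lt_or_ge m i with h9 | h9
    · rw [h6 i hi h9, zero_mul]
    · have : i = m := by omega
      rw [this, h7, zero_mul]
  have h9 := dsum_lt 16 (by norm_num) m d (fun i hi => hd i (by omega))
  omega

end Pool.Agent.helper83.NutSmall2
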