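import Pool.Agent.helper83.NutSmall.T3_10

/-!
# Certificates for degree 3 and order 10, part 1
-/

set_option autoImplicit false

namespace Pool.Agent.helper83.NutSmall2.C3_10

/-- certificates -/
def certs0 : List Nat := [
  0x150044010004000004c1800170044010004400004c192072000580110040011000013064818920009408100800470118014004c07203c000000d5614005801500480100080010001192062071850000440120118401b,
  0x50011004001000001306480081c004008,
  0x4c012004401100001305c0060016004c01800001306472000600150048018000013040900800250048016008c01100c0000008d100150048016004c08a00000000056423100001c8010,
  0x14004c010005000004c1920920009401100580130080032000002340007,
  0x17005801500440280040004401800540140044025004000440160050010005800004c190c90800018005c0210098015015001301080700080035480044014011a400400e,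
  0x16004c0120044020004000440000000048d915e0001300000000213654780004c017004c012004402000400046482480016005c046700180058012004800004c1006001600440110000130405901600250090080011c046004c0a2028415000000556400540120050011022a451000600160048011004c01600001416452442000000000031627450003c000000000c985d50000f60000000000048d158000b00000000002135460002c000000000048d1580007004c0100050011022903000000000000804d0000300000000000210430000c800000000000102340000c020004c0120044030000001348100029,
  0x6001700580180000130409008248001700580150050011008c022008003000000534000000000000004210005c400b,
  0x2440001720019005c016009002100c000000c9124005c0150040010000013040170048010005c00004c100000000000002100005e410800000000000004300005c00000000000010c0001700000000000004300005c000f,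
  0x1c0060012006401102280180058012004800004c1900180044019004808a60018005c011004400004c1900180050013004c00004c100000000000009840005c0000000000002610001700000000000009840005e000000000000008540005c018004c012006000004c100000000000008540005c018004c011006000004c100000000000008540005c01800540140040024004000464724614800000000048d19d60001f00000000013426570006c0000000084d1d960001f00000000023417560006c0150050013005000004c19209200094014004801100c0000004d51000000000000004200005c00000000000014c8001700440120118800000000000002100005c0000000000001040001700000000000005310005c400400130118c00000000000003100005c0031,
  0x120c4002300000000000085100008c0000000000021440002300000000000068310008c00000000000120c4002300000000000085100008c018004c01100400210040004400000000000120c4002300000000000085100008c000000000001a0c400238000000000000010c4001700000000000005100005c00000000000018c4001700000000000072100008c400000000000002100005c0000000000001480001700000000000036420008c800000000000004320005c000000000000d4400023300000000000000c40001700000000000004200005c001a,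
  0x54014004c0100080010001100000000000015300008c00000000000094c0002300000000000015300008c0000000000019500002300000000000015300008c00000000000094c0002300000000000075400008c00000000000054c0002300000000000025300008c000000000001950000235000000000000050c0002300000000000024300008c00000000000050c0002300000000000005400005c0000000000001500001700000000000005400005d000000000000003100005c0000000000000c80001700000000000003100005c0017,
  0x321000ac0002]

theorem chk0 : checkFrom 3 10 T3_10.T certs0 0 = true := by decide +kernel

theorem len0 : certs0.length = 12 := by decide +kernel

end Pool.Agent.helper83.NutSmall2.C3_10
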