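import Pool.Agent.helper83.NutSmall.Sem

/-!
# Soundness of the linear algebra tokens
-/

set_option autoImplicit false

namespace Pool.Agent.helper83.NutSmall2

open Finset

theorem comb_succ (k g m c acc : ℕ) (K : ℕ → ℕ → Bool) :
    comb k g (m + 1) c acc K = Bool.rec (motive := fun _ => Bool) false
      (comb k g m (c >>> 14) (acc + ((c >>> 4) % 1024) * row g (c % 16)) K)
      (Nat.beq (row g (c % 16) % 65535) k) := rfl

theorem comb_sound (k g : ℕ) (K : ℕ → ℕ → Bool) : ∀ (m c acc : ℕ), comb k g m c acc K = true →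
    ∃ (c' : ℕ) (Z : ℕ → ℕ), K c' (acc + ∑ v ∈ range 16, Z v * row g v) = true ∧
      (∀ v, Z v ≠ 0 → row g v % 65535 = k) ∧ ∑ v ∈ range 16, Z v ≤ 1023 * m ∧
      ∀ v, 16 ≤ v → Z v = 0 := by
  intro m
  induction m with
  | zero =>
    intro c acc h
    refine ⟨c, fun _ => 0, ?_, fun v hv => absurd rfl hv, ?_, fun _ _ => rfl⟩
    · have : acc + ∑ v ∈ range 16, 0 * row g v = acc := by simp only [zero_mul, Finset.sum_const_zero, add_zero]
      rw [this]
      exact h
    · simp
  | succ m ih =>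
    intro c acc h
    rw [comb_succ] at h
    cases hb : Nat.beq (row g (c % 16) % 65535) k
    · rw [hb] at h
      exact absurd h Bool.false_ne_true
    · rw [hb] at h
      obtain ⟨c', Z, h1, h2, h3, h5⟩ := ih _ _ h
      have hv : c % 16 < 16 := Nat.mod_lt _ (by norm_num)
      refine ⟨c', fun v => Z v + if v = c % 16 then (c >>> 4) % 1024 else 0, ?_, ?_, ?_, ?_⟩
      · have : acc + ∑ v ∈ range 16, (Z v + if v = c % 16 then (c >>> 4) % 1024 else 0) * row g v =
            acc + (c >>> 4) % 1024 * row g (c % 16) + ∑ v ∈ range 16, Z v * row g v := by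
          simp only [add_mul, Finset.sum_add_distrib, ite_mul, zero_mul]
          rw [sum_if 16 (c % 16) hv (fun v => (c >>> 4) % 1024 * row g v)]
          ring
        rw [this]
        exact h1
      · intro v hv'
        by_cases h4 : v = c % 16
        · rw [h4]
          exact Nat.eq_of_beq_eq_true hb
        · have hv2 : Z v + (if v = c % 16 then (c >>> 4) % 1024 else 0) ≠ 0 := hv'
          rw [if_neg h4, add_zero] at hv2
          exact h2 v hv2
      · rw [Finset.sum_add_distrib, sum_if 16 (c % 16) hv (fun _ => (c >>> 4) % 1024)]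
        have := Nat.mod_lt (c >>> 4) (show 0 < 1024 by norm_num)
        omega
      · intro v hv'
        show Z v + (if v = c % 16 then (c >>> 4) % 1024 else 0) = 0
        rw [h5 v hv', if_neg (by omega)]

theorem comb2_succ (k g m c acc p : ℕ) (K : ℕ → ℕ → ℕ → Bool) :
    comb2 k g (m + 1) c acc p K = Bool.rec (motive := fun _ => Bool) false
      (comb2 k g m (c >>> 14) (acc + ((c >>> 4) % 1024) * row g (c % 16))
        (p + ((c >>> 4) % 1024) <<< (16 * (c % 16))) K)
      (Nat.beq (row g (c % 16) % 65535) k) := rfl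

theorem shl16 (y v : ℕ) : y <<< (16 * v) = y * 65536 ^ v := by
  rw [Nat.shiftLeft_eq, pow_mul]
  norm_num

theorem comb2_sound (k g : ℕ) (K : ℕ → ℕ → ℕ → Bool) : ∀ (m c acc p : ℕ),
    comb2 k g m c acc p K = true →
    ∃ (c' : ℕ) (Z : ℕ → ℕ), K c' (acc + ∑ v ∈ range 16, Z v * row g v) (p + dsum 65536 16 Z) = true ∧
      (∀ v, Z v ≠ 0 → row g v % 65535 = k) ∧ ∑ v ∈ range 16, Z v ≤ 1023 * m ∧
      ∀ v, 16 ≤ v → Z v = 0 := by
  intro m
  induction m with
  | zero =>
    intro c acc p h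
    refine ⟨c, fun _ => 0, ?_, fun v hv => absurd rfl hv, ?_, fun _ _ => rfl⟩
    · have : acc + ∑ v ∈ range 16, 0 * row g v = acc := by simp only [zero_mul, Finset.sum_const_zero, add_zero]
      have h2 : p + dsum 65536 16 (fun _ => 0) = p := by
        unfold dsum
        simp only [zero_mul, Finset.sum_const_zero, add_zero]
      rw [this, h2]
      exact h
    · simp
  | succ m ih =>
    intro c acc p h
    rw [comb2_succ] at h
    cases hb : Nat.beq (row g (c % 16) % 65535) k
    · rw [hb] at h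
      exact absurd h Bool.false_ne_true
    · rw [hb] at h
      obtain ⟨c', Z, h1, h2, h3, h5⟩ := ih _ _ _ h
      have hv : c % 16 < 16 := Nat.mod_lt _ (by norm_num)
      refine ⟨c', fun v => Z v + if v = c % 16 then (c >>> 4) % 1024 else 0, ?_, ?_, ?_, ?_⟩
      · have : acc + ∑ v ∈ range 16, (Z v + if v = c % 16 then (c >>> 4) % 1024 else 0) * row g v =
            acc + (c >>> 4) % 1024 * row g (c % 16) + ∑ v ∈ range 16, Z v * row g v := by
          simp only [add_mul, Finset.sum_add_distrib, ite_mul, zero_mul]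
          rw [sum_if 16 (c % 16) hv (fun v => (c >>> 4) % 1024 * row g v)]
          ring
        have h6 : p + dsum 65536 16 (fun v => Z v + if v = c % 16 then (c >>> 4) % 1024 else 0) =
            p + ((c >>> 4) % 1024) <<< (16 * (c % 16)) + dsum 65536 16 Z := by
          rw [dsum_add, dsum_if 65536 16 (c % 16) _ hv, shl16]
          ring
        rw [this, h6]
        exact h1
      · intro v hv'
        by_cases h4 : v = c % 16
        · rw [h4]
          exact Nat.eq_of_beq_eq_true hb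
        · have hv2 : Z v + (if v = c % 16 then (c >>> 4) % 1024 else 0) ≠ 0 := hv'
          rw [if_neg h4, add_zero] at hv2
          exact h2 v hv2
      · rw [Finset.sum_add_distrib, sum_if 16 (c % 16) hv (fun _ => (c >>> 4) % 1024)]
        have := Nat.mod_lt (c >>> 4) (show 0 < 1024 by norm_num)
        omega
      · intro v hv'
        show Z v + (if v = c % 16 then (c >>> 4) % 1024 else 0) = 0
        rw [h5 v hv', if_neg (by omega)]

theorem comb_sound' (k g : ℕ) (K : ℕ → ℕ → Bool) (m c acc : ℕ) (h : comb k g m c acc K = true) :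
    ∃ (c' A' : ℕ) (Z : ℕ → ℕ), K c' A' = true ∧ A' = acc + ∑ v ∈ range 16, Z v * row g v ∧
      (∀ v, Z v ≠ 0 → row g v % 65535 = k) ∧ ∑ v ∈ range 16, Z v ≤ 1023 * m ∧
      ∀ v, 16 ≤ v → Z v = 0 := by
  obtain ⟨c', Z, h1, h2⟩ := comb_sound k g K m c acc h
  exact ⟨c', _, Z, h1, rfl, h2⟩

theorem comb2_sound' (k g : ℕ) (K : ℕ → ℕ → ℕ → Bool) (m c acc p : ℕ)
    (h : comb2 k g m c acc p K = true) :
    ∃ (c' A' P' : ℕ) (Z : ℕ → ℕ), K c' A' P' = true ∧ A' = acc + ∑ v ∈ range 16, Z v * row g v ∧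
      P' = p + dsum 65536 16 Z ∧
      (∀ v, Z v ≠ 0 → row g v % 65535 = k) ∧ ∑ v ∈ range 16, Z v ≤ 1023 * m ∧
      ∀ v, 16 ≤ v → Z v = 0 := by
  obtain ⟨c', Z, h1, h2⟩ := comb2_sound k g K m c acc p h
  exact ⟨c', _, _, Z, h1, rfl, rfl, h2⟩

theorem ones_eq (n : ℕ) (hn : n ≤ 16) : ones n = dsum 65536 16 (fun w => if w < n then 1 else 0) := by
  have h1 : dsum 65536 16 (fun w => if w < n then 1 else 0) = ∑ w ∈ range n, 65536 ^ w := by
    unfold dsum
    rw [← Finset.sum_subset (s₁ := range n) (by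
      intro i hi
      rw [mem_range] at hi ⊢
      omega) (fun i _ hi => by
        rw [mem_range] at hi
        show (if i < n then 1 else 0) * 65536 ^ i = 0
        rw [if_neg hi, zero_mul])]
    refine Finset.sum_congr rfl fun i hi => ?_
    show (if i < n then 1 else 0) * 65536 ^ i = 65536 ^ i
    rw [if_pos (mem_range.1 hi), one_mul]
  rw [h1]
  show (65536 ^ n - 1) / 65535 = _
  have h2 := Nat.geomSum_eq (m := 65536) (by norm_num) n
  rw [h2]

theorem sum_rows (G : ℕ → ℕ → Bool) (Z : ℕ → ℕ) :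
    ∑ v ∈ range 16, Z v * rw' G v = dsum 65536 16 (fun w => ∑ v ∈ range 16, Z v * bb (G v w)) := by
  unfold rw' dsum
  simp only [Finset.mul_sum, Finset.sum_mul]
  rw [Finset.sum_comm]
  refine Finset.sum_congr rfl fun w _ => Finset.sum_congr rfl fun v _ => ?_
  ring

theorem dsum_smul (B N c : ℕ) (d : ℕ → ℕ) : c * dsum B N d = dsum B N (fun i => c * d i) := by
  unfold dsum
  rw [Finset.mul_sum]
  exact Finset.sum_congr rfl fun i _ => by rw [mul_assoc]

theorem sum_bb_le (G : ℕ → ℕ → Bool) (Z : ℕ → ℕ) (w : ℕ) :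
    ∑ v ∈ range 16, Z v * bb (G v w) ≤ ∑ v ∈ range 16, Z v := by
  refine Finset.sum_le_sum fun v _ => ?_
  calc Z v * bb (G v w) ≤ Z v * 1 := Nat.mul_le_mul_left _ (bb_le _)
    _ = Z v := mul_one _

section
variable {k n : ℕ} {A : Fin n → Fin n → Bool} {x : Fin n → ℝ}

/-- sums over the neighbours of a complete vertex -/
theorem row_sum (T : Tgt k n A x) (hn : n ≤ 16) {s : ℕ} {G : ℕ → ℕ → Bool} {f : ℕ → Fin n}
    (h : Emb A s G f) (v : ℕ) (hv : deg G v = k) (y : Fin n → ℝ) :
    ∑ w ∈ range s, (bb (G v w) : ℝ) * y (f w) = ∑ u, (if A (f v) u then y u else 0) := by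
  have hs := h.le
  have h1 : (nbr G v).image f = univ.filter (fun w => A (f v) w = true) := by
    refine Finset.eq_of_subset_of_card_le (image_sub (by omega) h v) ?_
    rw [card_image (by omega) h v, T.reg, hv]
  have h2 : nbr G v = (range s).filter (fun w => G v w = true) := by
    ext w
    rw [mem_nbr (by omega) h v w, mem_filter, mem_range]
    constructor
    · exact fun h' => ⟨(h.sup v w h').2, h'⟩
    · exact fun h' => h'.2
  rw [← Finset.sum_filter, ← h1, Finset.sum_image (by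
    intro i hi j hj hij
    have hi' := (mem_nbr (by omega) h v i).1 hi
    have hj' := (mem_nbr (by omega) h v j).1 hj
    exact h.inj i (h.sup v i hi').2 j (h.sup v j hj').2 hij), h2, Finset.sum_filter]
  refine Finset.sum_congr rfl fun w _ => ?_
  unfold bb
  by_cases hG : G v w = true
  · rw [if_pos hG, if_pos hG, Nat.cast_one, one_mul]
  · rw [if_neg hG, if_neg hG, Nat.cast_zero, zero_mul]

theorem comb_zero (T : Tgt k n A x) (hn : n ≤ 16) {s : ℕ} {G : ℕ → ℕ → Bool} {f : ℕ → Fin n}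
    (h : Emb A s G f) (Z : ℕ → ℕ) (hZ : ∀ v, Z v ≠ 0 → deg G v = k) :
    ∑ w ∈ range s, ((∑ v ∈ range 16, Z v * bb (G v w) : ℕ) : ℝ) * x (f w) = 0 := by
  have h1 : ∀ w ∈ range s, ((∑ v ∈ range 16, Z v * bb (G v w) : ℕ) : ℝ) * x (f w) =
      ∑ v ∈ range 16, (Z v : ℝ) * ((bb (G v w) : ℝ) * x (f w)) := by
    intro w _
    rw [Nat.cast_sum, Finset.sum_mul]
    refine Finset.sum_congr rfl fun v _ => ?_
    rw [Nat.cast_mul, mul_assoc]
  rw [Finset.sum_congr rfl h1, Finset.sum_comm]
  refine Finset.sum_eq_zero fun v _ => ?_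
  rw [← Finset.mul_sum]
  by_cases hv : Z v = 0
  · rw [hv, Nat.cast_zero, zero_mul]
  · rw [row_sum T hn h v (hZ v hv), T.ker, mul_zero]

theorem sum_x (T : Tgt k n A x) (hk0 : 0 < k) : ∑ u, x u = 0 := by
  have h1 : ∑ v, ∑ u, (if A v u then x u else 0) = 0 := Finset.sum_eq_zero fun v _ => T.ker v
  rw [Finset.sum_comm] at h1
  have h2 : ∀ u, (∑ v, (if A v u then x u else 0)) = (k : ℝ) * x u := by
    intro u
    rw [← Finset.sum_filter, Finset.sum_const, nsmul_eq_mul]
    congr 2
    rw [← T.reg u]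
    congr 1
    ext v
    rw [mem_filter, mem_filter, T.symm]
  simp only [h2] at h1
  rw [← Finset.mul_sum] at h1
  rcases mul_eq_zero.1 h1 with h3 | h3
  · have : k = 0 := by exact_mod_cast h3
    omega
  · exact h3

theorem sum_x' (T : Tgt k n A x) (hk0 : 0 < k) {s : ℕ} {G : ℕ → ℕ → Bool} {f : ℕ → Fin n}
    (h : Emb A s G f) (hs : s = n) : ∑ w ∈ range s, x (f w) = 0 := by
  have hinj : Set.InjOn f (range s : Set ℕ) := by
    intro i hi j hj hij
    exact h.inj i (by simpa using hi) j (by simpa using hj) hij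
  have h1 : (range s).image f = univ := by
    refine Finset.eq_univ_of_card _ ?_
    rw [Finset.card_image_of_injOn hinj, card_range, Fintype.card_fin, hs]
  rw [← sum_x T hk0, ← h1, Finset.sum_image hinj]

theorem lin_core (T : Tgt k n A x) (hn : n ≤ 16) (hk0 : 0 < k) {s : ℕ} {G : ℕ → ℕ → Bool}
    {f : ℕ → Fin n} (h : Emb A s G f) (o1 o2 a b : ℕ) (Z1 Z2 : ℕ → ℕ)
    (ho : s = n ∨ (o1 = 0 ∧ o2 = 0)) (ha : a < s) (hb : b ≠ 0)
    (hZ1 : ∀ v, Z1 v ≠ 0 → deg G v = k) (hZ2 : ∀ v, Z2 v ≠ 0 → deg G v = k)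
    (he : ∀ w < s, o1 + ∑ v ∈ range 16, Z1 v * bb (G v w) =
      o2 + (if w = a then b else 0) + ∑ v ∈ range 16, Z2 v * bb (G v w)) : False := by
  have h1 := comb_zero T hn h Z1 hZ1
  have h2 := comb_zero T hn h Z2 hZ2
  have ho1 : (o1 : ℝ) * ∑ w ∈ range s, x (f w) = 0 := by
    rcases ho with ho | ho
    · rw [sum_x' T hk0 h ho, mul_zero]
    · rw [ho.1, Nat.cast_zero, zero_mul]
  have ho2 : (o2 : ℝ) * ∑ w ∈ range s, x (f w) = 0 := by
    rcases ho with ho | ho
    · rw [sum_x' T hk0 h ho, mul_zero]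
    · rw [ho.2, Nat.cast_zero, zero_mul]
  have h3 : ∑ w ∈ range s, ((o1 + ∑ v ∈ range 16, Z1 v * bb (G v w) : ℕ) : ℝ) * x (f w) = 0 := by
    have : ∀ w ∈ range s, ((o1 + ∑ v ∈ range 16, Z1 v * bb (G v w) : ℕ) : ℝ) * x (f w) =
        (o1 : ℝ) * x (f w) + ((∑ v ∈ range 16, Z1 v * bb (G v w) : ℕ) : ℝ) * x (f w) := by
      intro w _
      rw [Nat.cast_add, add_mul]
    rw [Finset.sum_congr rfl this, Finset.sum_add_distrib, ← Finset.mul_sum, ho1, h1, add_zero]
  have h4 : ∑ w ∈ range s, ((o2 + (if w = a then b else 0) +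
      ∑ v ∈ range 16, Z2 v * bb (G v w) : ℕ) : ℝ) * x (f w) = (b : ℝ) * x (f a) := by
    have : ∀ w ∈ range s, ((o2 + (if w = a then b else 0) +
        ∑ v ∈ range 16, Z2 v * bb (G v w) : ℕ) : ℝ) * x (f w) =
        (o2 : ℝ) * x (f w) + (if w = a then (b : ℝ) * x (f w) else 0) +
          ((∑ v ∈ range 16, Z2 v * bb (G v w) : ℕ) : ℝ) * x (f w) := by
      intro w _
      rw [Nat.cast_add, Nat.cast_add, add_mul, add_mul]
      congr 2
      by_cases hw : w = a
      · rw [if_pos hw, if_pos hw]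
      · rw [if_neg hw, if_neg hw, Nat.cast_zero, zero_mul]
    rw [Finset.sum_congr rfl this, Finset.sum_add_distrib, Finset.sum_add_distrib,
      ← Finset.mul_sum, ho2, h2, add_zero, zero_add, Finset.sum_ite_eq', if_pos (mem_range.2 ha)]
  have h5 : ∑ w ∈ range s, ((o1 + ∑ v ∈ range 16, Z1 v * bb (G v w) : ℕ) : ℝ) * x (f w) =
      ∑ w ∈ range s, ((o2 + (if w = a then b else 0) +
        ∑ v ∈ range 16, Z2 v * bb (G v w) : ℕ) : ℝ) * x (f w) :=
    Finset.sum_congr rfl fun w hw => by rw [he w (mem_range.1 hw)]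
  rw [h3, h4] at h5
  rcases mul_eq_zero.1 h5.symm with h6 | h6
  · exact hb (by exact_mod_cast h6)
  · exact T.nz _ h6

theorem dep_core (T : Tgt k n A x) (hn : n ≤ 16) (hk0 : 0 < k) {s : ℕ} {G : ℕ → ℕ → Bool}
    {f : ℕ → Fin n} (h : Emb A s G f) (Z1 Z2 : ℕ → ℕ)
    (hZ1 : ∀ v, Z1 v ≠ 0 → deg G v = k) (hZ2 : ∀ v, Z2 v ≠ 0 → deg G v = k)
    (he : ∀ w < s, ∑ v ∈ range 16, Z1 v * bb (G v w) = ∑ v ∈ range 16, Z2 v * bb (G v w))
    (hne : ∃ v, Z1 v ≠ Z2 v) (hz : s < n ∨ ∃ q < s, Z1 q = Z2 q) : False := by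
  have hs := h.le
  set c : ℕ → ℝ := fun v => (Z1 v : ℝ) - Z2 v with hc
  have hcomp : ∀ v, c v ≠ 0 → deg G v = k := by
    intro v hv
    by_cases h1 : Z1 v = 0
    · by_cases h2 : Z2 v = 0
      · exact absurd (by simp only [hc, h1, h2, sub_self]) hv
      · exact hZ2 v h2
    · exact hZ1 v h1
  set z : Fin n → ℝ := fun u => ∑ v ∈ range s, (if f v = u then c v else 0) with hzdef
  have hzf : ∀ v < s, z (f v) = c v := by
    intro v hv
    have : ∀ w ∈ range s, (if f w = f v then c w else 0) = if w = v then c w else 0 := by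
      intro w hw
      by_cases hwv : w = v
      · rw [if_pos hwv, if_pos (by rw [hwv])]
      · rw [if_neg hwv, if_neg fun h' => hwv (h.inj w (mem_range.1 hw) v hv h')]
    show ∑ w ∈ range s, (if f w = f v then c w else 0) = c v
    rw [Finset.sum_congr rfl this, Finset.sum_ite_eq', if_pos (mem_range.2 hv)]
  have hzout : ∀ u, (∀ v < s, f v ≠ u) → z u = 0 := by
    intro u hu
    exact Finset.sum_eq_zero fun v hv => if_neg (hu v (mem_range.1 hv))
  have hker : ∀ u, ∑ w, (if A u w then z w else 0) = 0 := by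
    intro u
    have e1 : ∑ w, (if A u w then z w else 0) = ∑ v ∈ range s, (if A u (f v) then c v else 0) := by
      have e2 : ∀ w ∈ (univ : Finset (Fin n)), (if A u w then z w else 0) =
          ∑ v ∈ range s, (if A u w then (if f v = w then c v else 0) else 0) := by
        intro w _
        by_cases hA : A u w = true
        · simp only [if_pos hA]
          rfl
        · simp only [if_neg hA, Finset.sum_const_zero]
      rw [Finset.sum_congr rfl e2, Finset.sum_comm]
      refine Finset.sum_congr rfl fun v _ => ?_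
      have e3 : ∀ w ∈ (univ : Finset (Fin n)), (if A u w then (if f v = w then c v else 0) else 0) =
          if f v = w then (if A u w then c v else 0) else 0 := by
        intro w _
        split_ifs <;> rfl
      rw [Finset.sum_congr rfl e3, Finset.sum_ite_eq, if_pos (mem_univ _)]
    rw [e1]
    by_cases hu : ∃ w < s, f w = u
    · obtain ⟨w, hw, rfl⟩ := hu
      have e4 : ∀ v ∈ range s, (if A (f w) (f v) then c v else 0) = c v * (bb (G v w) : ℝ) := by
        intro v hv
        by_cases hcv : c v = 0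
        · rw [hcv, zero_mul]
          split_ifs <;> rfl
        · have hd := hcomp v hcv
          by_cases hG : G v w = true
          · have hA := h.edge v w hG
            rw [T.symm] at hA
            rw [if_pos hA, hG, bb_true, Nat.cast_one, mul_one]
          · have hA : ¬ A (f w) (f v) = true := by
              intro hA
              rw [T.symm] at hA
              obtain ⟨a, ha1, ha2⟩ := complete T (by omega) h v hd _ hA
              have : a = w := h.inj a (h.sup v a ha1).2 w hw ha2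
              rw [this] at ha1
              exact hG ha1
            rw [if_neg hA, Bool.eq_false_of_not_eq_true hG, bb_false, Nat.cast_zero, mul_zero]
      rw [Finset.sum_congr rfl e4]
      have e5 : ∀ Z : ℕ → ℕ, ∑ v ∈ range s, (Z v : ℝ) * (bb (G v w) : ℝ) =
          ((∑ v ∈ range 16, Z v * bb (G v w) : ℕ) : ℝ) := by
        intro Z
        rw [Nat.cast_sum]
        have : ∑ v ∈ range 16, ((Z v * bb (G v w) : ℕ) : ℝ) =
            ∑ v ∈ range s, ((Z v * bb (G v w) : ℕ) : ℝ) := by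
          symm
          refine Finset.sum_subset (by
            intro i hi
            rw [mem_range] at hi ⊢
            omega) fun i _ hi => ?_
          rw [mem_range] at hi
          have : G i w = false := by
            cases hb : G i w
            · rfl
            · exact absurd (h.sup i w hb).1 hi
          rw [this, bb_false, mul_zero, Nat.cast_zero]
        rw [this]
        exact Finset.sum_congr rfl fun v _ => by rw [Nat.cast_mul]
      have e6 : ∀ v ∈ range s, c v * (bb (G v w) : ℝ) =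
          (Z1 v : ℝ) * (bb (G v w) : ℝ) - (Z2 v : ℝ) * (bb (G v w) : ℝ) := by
        intro v _
        simp only [hc]
        ring
      rw [Finset.sum_congr rfl e6, Finset.sum_sub_distrib, e5, e5, he w hw, sub_self]
    · push Not at hu
      refine Finset.sum_eq_zero fun v hv => ?_
      by_cases hcv : c v = 0
      · rw [hcv]
        split_ifs <;> rfl
      · refine if_neg fun hA => ?_
        rw [T.symm] at hA
        obtain ⟨a, ha1, ha2⟩ := complete T (by omega) h v (hcomp v hcv) _ hA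
        exact hu a (h.sup v a ha1).2 ha2
  obtain ⟨l, hl⟩ := T.simple z hker
  have hl0 : l = 0 := by
    have : ∃ u, z u = 0 := by
      rcases hz with hz | ⟨q, hq, hq2⟩
      · have : ∃ u, ∀ v < s, f v ≠ u := by
          by_contra hcon
          push Not at hcon
          have h1 : (univ : Finset (Fin n)) ⊆ (range s).image f := by
            intro u _
            obtain ⟨v, hv, hvu⟩ := hcon u
            exact mem_image.2 ⟨v, mem_range.2 hv, hvu⟩
          have h2 := Finset.card_le_card h1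
          have h3 := Finset.card_image_le (s := range s) (f := f)
          rw [card_univ, Fintype.card_fin] at h2
          rw [card_range] at h3
          omega
        obtain ⟨u, hu⟩ := this
        exact ⟨u, hzout u hu⟩
      · refine ⟨f q, ?_⟩
        rw [hzf q hq]
        simp only [hc, hq2, sub_self]
    obtain ⟨u, hu⟩ := this
    have h1 := hl u
    rw [hu] at h1
    rcases mul_eq_zero.1 h1.symm with h2 | h2
    · exact h2
    · exact absurd h2 (T.nz u)
  obtain ⟨v, hv⟩ := hne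
  have hcv : c v ≠ 0 := by
    intro h0
    apply hv
    have : (Z1 v : ℝ) = Z2 v := by
      have : (Z1 v : ℝ) - Z2 v = 0 := h0
      linarith
    exact_mod_cast this
  have hvs : v < s := by
    by_contra hvs
    have := deg_zero_of G s h.sup v (by omega)
    rw [hcomp v hcv] at this
    omega
  have h1 := hl (f v)
  rw [hzf v hvs, hl0, zero_mul] at h1
  exact hcv h1

/-- `K` is applied after a test -/
theorem bool_rec_true (b c : Bool) (h : Bool.rec (motive := fun _ => Bool) false b c = true) :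
    b = true ∧ c = true := by
  cases c
  · exact absurd h Bool.false_ne_true
  · exact ⟨h, rfl⟩

theorem bool_rec_false (b c : Bool) (h : Bool.rec (motive := fun _ => Bool) b false c = true) :
    b = true ∧ c = false := by
  cases c
  · exact ⟨h, rfl⟩
  · exact absurd h Bool.false_ne_true

/-- the digits of a combination of rows -/
def cdig (n o : ℕ) (G : ℕ → ℕ → Bool) (Z e : ℕ → ℕ) (w : ℕ) : ℕ :=
  o * (if w < n then 1 else 0) + e w + ∑ v ∈ range 16, Z v * bb (G v w)

theorem cdig_sum (n o : ℕ) (hn : n ≤ 16) (G : ℕ → ℕ → Bool) (Z e : ℕ → ℕ) :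
    dsum 65536 16 (cdig n o G Z e) =
      o * ones n + dsum 65536 16 e + ∑ v ∈ range 16, Z v * rw' G v := by
  unfold cdig
  rw [dsum_add, dsum_add, ones_eq n hn, dsum_smul, sum_rows]

theorem cdig_lt (n o b : ℕ) (G : ℕ → ℕ → Bool) (Z e : ℕ → ℕ) (ho : o < 1024) (hb : b < 1024)
    (he : ∀ w, e w ≤ b) (hZ : ∑ v ∈ range 16, Z v ≤ 1023 * 15) (w : ℕ) :
    cdig n o G Z e w < 65536 := by
  unfold cdig
  have h1 := sum_bb_le G Z w
  have h2 := he w
  have h3 : o * (if w < n then 1 else 0) ≤ o := by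
    split_ifs <;> omega
  omega

theorem lin_digits (T : Tgt k n A x) (hn : n ≤ 16) (hk : k < 16) (hk0 : 0 < k) {s : ℕ}
    {G : ℕ → ℕ → Bool} {f : ℕ → Fin n} (h : Emb A s G f) (o1 o2 a b : ℕ) (Z1 Z2 : ℕ → ℕ)
    (ho : s = n ∨ (o1 = 0 ∧ o2 = 0)) (ha : a < s) (hb : b ≠ 0) (hb2 : b < 1024)
    (ho1 : o1 < 1024) (ho2 : o2 < 1024)
    (hZ1 : ∀ v, Z1 v ≠ 0 → row (code k s G) v % 65535 = k)
    (hZ2 : ∀ v, Z2 v ≠ 0 → row (code k s G) v % 65535 = k)
    (hS1 : ∑ v ∈ range 16, Z1 v ≤ 1023 * 15) (hS2 : ∑ v ∈ range 16, Z2 v ≤ 1023 * 15)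
    (hz1 : ∀ v, 16 ≤ v → Z1 v = 0) (hz2 : ∀ v, 16 ≤ v → Z2 v = 0)
    (he : o1 * ones n + ∑ v ∈ range 16, Z1 v * row (code k s G) v =
      o2 * ones n + b <<< (16 * a) + ∑ v ∈ range 16, Z2 v * row (code k s G) v) : False := by
  have hs := h.le
  have hrow : ∀ Z : ℕ → ℕ, ∑ v ∈ range 16, Z v * row (code k s G) v =
      ∑ v ∈ range 16, Z v * rw' G v := by
    intro Z
    refine Finset.sum_congr rfl fun v hv => ?_
    rw [row_code k s G hk (by omega) v (mem_range.1 hv)]
  have hdeg : ∀ Z : ℕ → ℕ, (∀ v, Z v ≠ 0 → row (code k s G) v % 65535 = k) →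
      (∀ v, 16 ≤ v → Z v = 0) → ∀ v, Z v ≠ 0 → deg G v = k := by
    intro Z hZ hz v hv
    have hv16 : v < 16 := by
      by_contra hcon
      exact hv (hz v (by omega))
    rw [← rw_mod, ← row_code k s G hk (by omega) v hv16]
    exact hZ v hv
  rw [hrow, hrow, shl16, ← dsum_if 65536 16 a b (by omega)] at he
  have e1 := cdig_sum n o1 hn G Z1 (fun _ => 0)
  have e2 := cdig_sum n o2 hn G Z2 (fun w => if w = a then b else 0)
  have e0 : dsum 65536 16 (fun _ => 0) = 0 := by
    unfold dsum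
    simp only [zero_mul, Finset.sum_const_zero]
  rw [e0, add_zero, he, ← e2] at e1
  have hle : ∀ w, (fun w => if w = a then b else 0) w ≤ b := by
    intro w
    show (if w = a then b else 0) ≤ b
    split_ifs <;> omega
  have e3 := dsum_inj 65536 (by norm_num) 16 _ _
    (fun i _ => cdig_lt n o1 b G Z1 (fun _ => 0) ho1 hb2 (fun _ => Nat.zero_le _) hS1 i)
    (fun i _ => cdig_lt n o2 b G Z2 (fun w => if w = a then b else 0) ho2 hb2 hle hS2 i) e1
  refine lin_core T hn hk0 h o1 o2 a b Z1 Z2 ho ha hb (hdeg Z1 hZ1 hz1) (hdeg Z2 hZ2 hz2) ?_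
  intro w hw
  have e4 := e3 w (by omega)
  unfold cdig at e4
  rw [if_pos (show w < n by omega), mul_one, mul_one, add_zero] at e4
  exact e4

theorem beq_true {a b : ℕ} (h : Nat.beq a b = true) : a = b := Nat.eq_of_beq_eq_true h

theorem beq_false {a b : ℕ} (h : Nat.beq a b = false) : a ≠ b := Nat.ne_of_beq_eq_false h

theorem ble_true {a b : ℕ} (h : Nat.ble a b = true) : a ≤ b := Nat.le_of_ble_eq_true h

theorem ble_false {a b : ℕ} (h : Nat.ble a b = false) : ¬ a ≤ b := fun h' =>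
  Bool.false_ne_true (h.symm.trans (Nat.ble_eq_true_of_le h'))

theorem rec_beq {b : Bool} {S1 S2 : ℕ}
    (h : Bool.rec (motive := fun _ => Bool) false b (Nat.beq S1 S2) = true) : b = true ∧ S1 = S2 :=
  ⟨(bool_rec_true _ _ h).1, beq_true (bool_rec_true _ _ h).2⟩

theorem lin_sound (T : Tgt k n A x) (hn : n ≤ 16) (hk : k < 16) (hk0 : 0 < k) (g c : ℕ)
    (K : ℕ → Bool) (h : lin k n g c K = true) : ¬ Real k A g ∧ ∃ c', K c' = true := by
  have h0 : Bool.rec (motive := fun _ => Bool)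
    (Bool.rec (motive := fun _ => Bool) false
      (Bool.rec (motive := fun _ => Bool)
        (Bool.rec (motive := fun _ => Bool) false
          (comb k g (c % 16) (c >>> 42) 0 fun c1 A1 =>
            linB k g ((c >>> 4) % 16) 0 ((c >>> 28) % 16) ((c >>> 32) % 1024) A1 n c1 K)
          (Nat.beq ((c >>> 8) % 1048576) 0))
        (comb k g (c % 16) (c >>> 42) (((c >>> 8) % 1024) * (ones n)) fun c1 A1 =>
          linB k g ((c >>> 4) % 16) ((c >>> 18) % 1024) ((c >>> 28) % 16) ((c >>> 32) % 1024)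
            A1 n c1 K)
        (Nat.beq (g % 32) n))
      (Nat.ble (((c >>> 28) % 16) + 1) (g % 32)))
    false
    (Nat.beq ((c >>> 32) % 1024) 0) = true := h
  clear h
  obtain ⟨h1, hb⟩ := bool_rec_false _ _ h0
  obtain ⟨h2, ha⟩ := bool_rec_true _ _ h1
  clear h0 h1
  replace hb := beq_false hb
  replace ha := ble_true ha
  have hkey : ∃ o1 o2 : ℕ, o1 < 1024 ∧ o2 < 1024 ∧ (g % 32 = n ∨ (o1 = 0 ∧ o2 = 0)) ∧
      comb k g (c % 16) (c >>> 42) (o1 * (ones n)) (fun c1 A1 =>
          linB k g ((c >>> 4) % 16) o2 ((c >>> 28) % 16) ((c >>> 32) % 1024) A1 n c1 K) = true := by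
    cases hgn : Nat.beq (g % 32) n
    · rw [hgn] at h2
      obtain ⟨h3, _⟩ := bool_rec_true _ _ h2
      refine ⟨0, 0, by norm_num, by norm_num, Or.inr ⟨rfl, rfl⟩, ?_⟩
      rw [zero_mul]
      exact h3
    · rw [hgn] at h2
      exact ⟨(c >>> 8) % 1024, (c >>> 18) % 1024, Nat.mod_lt _ (by norm_num),
        Nat.mod_lt _ (by norm_num), Or.inl (beq_true hgn), h2⟩
  clear h2
  obtain ⟨o1, o2, ho1, ho2, ho, h3⟩ := hkey
  obtain ⟨c1, A1, Z1, h4, hA1, hZ1, hS1, hz1⟩ := comb_sound' k g _ _ _ _ h3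
  have h5 : comb k g ((c >>> 4) % 16) c1 (o2 * ones n + ((c >>> 32) % 1024) <<< (16 * ((c >>> 28) % 16)))
    (fun c2 A2 => Bool.rec (motive := fun _ => Bool) false (K c2) (Nat.beq A1 A2)) = true := h4
  obtain ⟨c2, A2, Z2, h6, hA2, hZ2, hS2, hz2⟩ := comb_sound' k g _ _ _ _ h5
  obtain ⟨h7, h8⟩ := rec_beq h6
  refine ⟨?_, c2, h7⟩
  rintro ⟨s, G, f, hE, hg⟩
  have hs := hE.le
  have hgs : g % 32 = s := by rw [hg]; exact code_mod32 k s G (by omega)
  rw [hgs] at ho ha
  rw [hA1, hA2] at h8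
  rw [hg] at hZ1 hZ2 h8
  have hm1 : c % 16 ≤ 15 := by omega
  have hm2 : (c >>> 4) % 16 ≤ 15 := by omega
  exact lin_digits T hn hk hk0 hE o1 o2 _ _ Z1 Z2 ho ha hb (Nat.mod_lt _ (by norm_num)) ho1 ho2
    hZ1 hZ2 (hS1.trans (Nat.mul_le_mul_left _ hm1)) (hS2.trans (Nat.mul_le_mul_left _ hm2))
    hz1 hz2 h8

theorem dep_sound (T : Tgt k n A x) (hn : n ≤ 16) (hk : k < 16) (hk0 : 0 < k) (g c : ℕ)
    (K : ℕ → Bool) (h : dep k n g c K = true) : ¬ Real k A g ∧ ∃ c', K c' = true := by
  have h0 : comb2 k g (c % 16) (c >>> 12) 0 0 (fun c1 A1 P1 =>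
    comb2 k g ((c >>> 4) % 16) c1 0 0 fun c2 A2 P2 =>
      Bool.rec (motive := fun _ => Bool) false
        (Bool.rec (motive := fun _ => Bool)
          (Bool.rec (motive := fun _ => Bool) (K c2)
            (Bool.rec (motive := fun _ => Bool) false
              (Bool.rec (motive := fun _ => Bool) false (K c2)
                (Nat.beq (dig P1 ((c >>> 8) % 16)) (dig P2 ((c >>> 8) % 16))))
              (Nat.ble (((c >>> 8) % 16) + 1) n))
            (Nat.ble n (g % 32)))
          false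
          (Nat.beq P1 P2)) (Nat.beq A1 A2)) = true := h
  clear h
  obtain ⟨c1, A1, P1, Z1, h1, hA1, hP1, hZ1, hS1, hz1⟩ := comb2_sound' k g _ _ _ _ _ h0
  obtain ⟨c2, A2, P2, Z2, h2, hA2, hP2, hZ2, hS2, hz2⟩ := comb2_sound' k g _ _ _ _ _ h1
  clear h0 h1
  rw [zero_add] at hA1 hA2 hP1 hP2
  obtain ⟨h3, hA⟩ := rec_beq h2
  obtain ⟨h4, hP⟩ := bool_rec_false _ _ h3
  replace hP := beq_false hP
  have hm1 : c % 16 ≤ 15 := by omega
  have hm2 : (c >>> 4) % 16 ≤ 15 := by omega
  have hS1' := hS1.trans (Nat.mul_le_mul_left _ hm1)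
  have hS2' := hS2.trans (Nat.mul_le_mul_left _ hm2)
  have hb1 : ∀ i < 16, Z1 i < 65536 := by
    intro i hi
    have := Finset.single_le_sum (f := Z1) (s := range 16) (fun i _ => Nat.zero_le _) (mem_range.2 hi)
    omega
  have hb2 : ∀ i < 16, Z2 i < 65536 := by
    intro i hi
    have := Finset.single_le_sum (f := Z2) (s := range 16) (fun i _ => Nat.zero_le _) (mem_range.2 hi)
    omega
  have hd : ∀ (Z : ℕ → ℕ) (q : ℕ), (∀ i < 16, Z i < 65536) → q < 16 → dig (dsum 65536 16 Z) q = Z q := by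
    intro Z q hZ hq
    show (dsum 65536 16 Z) >>> (16 * q) % 65536 = _
    rw [Nat.shiftRight_eq_div_pow, pow_mul]
    exact dsum_digit 65536 (by norm_num) q 16 Z hZ hq
  have hkey : (∃ c', K c' = true) ∧ (g % 32 < n ∨ ∃ q < n, q < 16 ∧ Z1 q = Z2 q) := by
    cases hns : Nat.ble n (g % 32)
    · rw [hns] at h4
      exact ⟨⟨c2, h4⟩, Or.inl (by have := ble_false hns; omega)⟩
    · rw [hns] at h4
      obtain ⟨h5, h6⟩ := bool_rec_true _ _ h4
      obtain ⟨h7, h8⟩ := bool_rec_true _ _ h5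
      have hq := ble_true h6
      have hq16 : (c >>> 8) % 16 < 16 := Nat.mod_lt _ (by norm_num)
      have h9 := beq_true h8
      rw [hP1, hP2, hd Z1 _ hb1 hq16, hd Z2 _ hb2 hq16] at h9
      exact ⟨⟨c2, h7⟩, Or.inr ⟨_, hq, hq16, h9⟩⟩
  refine ⟨?_, hkey.1⟩
  replace hkey := hkey.2
  rintro ⟨s, G, f, hE, hg⟩
  have hs := hE.le
  have hgs : g % 32 = s := by rw [hg]; exact code_mod32 k s G (by omega)
  rw [hgs] at hkey
  rw [hA1, hA2] at hA
  rw [hg] at hZ1 hZ2 hA
  have hrow : ∀ Z : ℕ → ℕ, ∑ v ∈ range 16, Z v * row (code k s G) v =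
      ∑ v ∈ range 16, Z v * rw' G v := by
    intro Z
    refine Finset.sum_congr rfl fun v hv => ?_
    rw [row_code k s G hk (by omega) v (mem_range.1 hv)]
  have hdeg : ∀ Z : ℕ → ℕ, (∀ v, Z v ≠ 0 → row (code k s G) v % 65535 = k) →
      (∀ v, 16 ≤ v → Z v = 0) → ∀ v, Z v ≠ 0 → deg G v = k := by
    intro Z hZ hz v hv
    have hv16 : v < 16 := by
      by_contra hcon
      exact hv (hz v (by omega))
    rw [← rw_mod, ← row_code k s G hk (by omega) v hv16]
    exact hZ v hv
  rw [hrow, hrow, sum_rows, sum_rows] at hA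
  have hA' := dsum_inj 65536 (by norm_num) 16 _ _
    (fun w _ => by
      have := sum_bb_le G Z1 w
      show ∑ v ∈ range 16, Z1 v * bb (G v w) < 65536
      omega)
    (fun w _ => by
      have := sum_bb_le G Z2 w
      show ∑ v ∈ range 16, Z2 v * bb (G v w) < 65536
      omega) hA
  refine dep_core T hn hk0 hE Z1 Z2 (hdeg Z1 hZ1 hz1) (hdeg Z2 hZ2 hz2)
    (fun w hw => hA' w (by omega)) ?_ ?_
  · by_contra hcon
    push Not at hcon
    rw [hP1, hP2] at hP
    exact hP (dsum_congr _ _ _ _ fun i _ => hcon i)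
  · rcases hkey with h5 | ⟨q, h5, _, h6⟩
    · exact Or.inl h5
    · by_cases h7 : s < n
      · exact Or.inl h7
      · exact Or.inr ⟨q, by omega, h6⟩

end

end Pool.Agent.helper83.NutSmall2
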