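import Pool.Agent.helper83.NutSmall.Arith

/-!
# Meaning of the goals and soundness of branching
-/

set_option autoImplicit false

namespace Pool.Agent.helper83.NutSmall2

open Finset

/-- a `k`-regular graph on `n` vertices whose adjacency matrix has a one-dimensional kernel spanned
by a nowhere zero vector -/
structure Tgt (k n : ℕ) (A : Fin n → Fin n → Bool) (x : Fin n → ℝ) : Prop where
  symm : ∀ u v, A u v = A v u
  irr : ∀ v, A v v = false
  reg : ∀ v, (univ.filter (fun u => A v u = true)).card = k
  nz : ∀ v, x v ≠ 0
  ker : ∀ v, ∑ u, (if A v u then x u else 0) = 0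
  simple : ∀ z : Fin n → ℝ, (∀ v, ∑ u, (if A v u then z u else 0) = 0) →
    ∃ l : ℝ, ∀ v, z v = l * x v

/-- `G` is a graph on `0..s-1` mapped into `A` by `f`. -/
structure Emb {n : ℕ} (A : Fin n → Fin n → Bool) (s : ℕ) (G : ℕ → ℕ → Bool) (f : ℕ → Fin n) :
    Prop where
  sup : ∀ u w, G u w = true → u < s ∧ w < s
  sym : ∀ u w, G u w = G w u
  inj : ∀ i < s, ∀ j < s, f i = f j → i = j
  edge : ∀ u w, G u w = true → A (f u) (f w) = true

section
variable {k n : ℕ} {A : Fin n → Fin n → Bool} {x : Fin n → ℝ}

theorem Emb.le {s : ℕ} {G : ℕ → ℕ → Bool} {f : ℕ → Fin n} (h : Emb A s G f) : s ≤ n := by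
  have h1 : ((range s).image f).card = s := by
    rw [Finset.card_image_of_injOn, card_range]
    intro i hi j hj hij
    exact h.inj i (by simpa using hi) j (by simpa using hj) hij
  have h2 := Finset.card_le_univ ((range s).image f)
  rw [h1, Fintype.card_fin] at h2
  exact h2

/-- neighbours of `u` in `G` -/
def nbr (G : ℕ → ℕ → Bool) (u : ℕ) : Finset ℕ := (range 16).filter (fun w => G u w = true)

theorem card_nbr (G : ℕ → ℕ → Bool) (u : ℕ) : (nbr G u).card = deg G u := by
  unfold nbr deg bb
  rw [Finset.card_filter]

theorem mem_nbr {s : ℕ} (hs : s ≤ 16) {G : ℕ → ℕ → Bool} {f : ℕ → Fin n} (h : Emb A s G f)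
    (u w : ℕ) : w ∈ nbr G u ↔ G u w = true := by
  unfold nbr
  rw [mem_filter, mem_range]
  constructor
  · exact fun h => h.2
  · exact fun h' => ⟨by have := (h.sup u w h').2; omega, h'⟩

theorem image_sub {s : ℕ} (hs : s ≤ 16) {G : ℕ → ℕ → Bool} {f : ℕ → Fin n} (h : Emb A s G f)
    (u : ℕ) : (nbr G u).image f ⊆ univ.filter (fun w => A (f u) w = true) := by
  intro w hw
  obtain ⟨a, ha, rfl⟩ := mem_image.1 hw
  rw [mem_filter]
  exact ⟨mem_univ _, h.edge u a ((mem_nbr hs h u a).1 ha)⟩

theorem card_image {s : ℕ} (hs : s ≤ 16) {G : ℕ → ℕ → Bool} {f : ℕ → Fin n} (h : Emb A s G f)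
    (u : ℕ) : ((nbr G u).image f).card = deg G u := by
  rw [Finset.card_image_of_injOn, card_nbr]
  intro i hi j hj hij
  exact h.inj i (h.sup u i ((mem_nbr hs h u i).1 hi)).2 j (h.sup u j ((mem_nbr hs h u j).1 hj)).2 hij

theorem deg_le_k (T : Tgt k n A x) {s : ℕ} (hs : s ≤ 16) {G : ℕ → ℕ → Bool} {f : ℕ → Fin n}
    (h : Emb A s G f) (u : ℕ) : deg G u ≤ k := by
  rw [← card_image hs h u, ← T.reg (f u)]
  exact Finset.card_le_card (image_sub hs h u)

/-- all neighbours of a complete vertex are known -/
theorem complete (T : Tgt k n A x) {s : ℕ} (hs : s ≤ 16) {G : ℕ → ℕ → Bool} {f : ℕ → Fin n}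
    (h : Emb A s G f) (u : ℕ) (hu : deg G u = k) (w : Fin n) (hw : A (f u) w = true) :
    ∃ a, G u a = true ∧ f a = w := by
  have h1 : (nbr G u).image f = univ.filter (fun w => A (f u) w = true) := by
    refine Finset.eq_of_subset_of_card_le (image_sub hs h u) ?_
    rw [card_image hs h u, T.reg, hu]
  have h2 : w ∈ (nbr G u).image f := by
    rw [h1, mem_filter]
    exact ⟨mem_univ _, hw⟩
  obtain ⟨a, ha, hf⟩ := mem_image.1 h2
  exact ⟨a, (mem_nbr hs h u a).1 ha, hf⟩

/-- an incomplete vertex has another neighbour -/
theorem incomplete (T : Tgt k n A x) {s : ℕ} (hs : s ≤ 16) {G : ℕ → ℕ → Bool} {f : ℕ → Fin n}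
    (h : Emb A s G f) (u : ℕ) (hu : deg G u < k) :
    ∃ w, A (f u) w = true ∧ ∀ a, G u a = true → f a ≠ w := by
  by_contra hc
  push Not at hc
  have h1 : univ.filter (fun w => A (f u) w = true) ⊆ (nbr G u).image f := by
    intro w hw
    obtain ⟨a, ha, hf⟩ := hc w (mem_filter.1 hw).2
    exact mem_image.2 ⟨a, (mem_nbr hs h u a).2 ha, hf⟩
  have h2 := Finset.card_le_card h1
  rw [card_image hs h u, T.reg] at h2
  omega

theorem Emb.irr (T : Tgt k n A x) {s : ℕ} {G : ℕ → ℕ → Bool} {f : ℕ → Fin n}
    (h : Emb A s G f) (u : ℕ) : G u u = false := by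
  cases hb : G u u
  · rfl
  · have := h.edge u u hb
    rw [T.irr] at this
    exact this.symm

theorem addG_true (G : ℕ → ℕ → Bool) (u w a b : ℕ) :
    addG G u w a b = true ↔ G a b = true ∨ (a = u ∧ b = w) ∨ (a = w ∧ b = u) := by
  unfold addG
  simp [or_assoc]

theorem Emb.addE (T : Tgt k n A x) {s : ℕ} {G : ℕ → ℕ → Bool} {f : ℕ → Fin n}
    (h : Emb A s G f) (u w : ℕ) (hu : u < s) (hw : w < s) (he : A (f u) (f w) = true) :
    Emb A s (addG G u w) f where
  sup := by
    intro a b hab
    rw [addG_true] at hab
    rcases hab with h1 | ⟨rfl, rfl⟩ | ⟨rfl, rfl⟩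
    · exact h.sup a b h1
    · exact ⟨hu, hw⟩
    · exact ⟨hw, hu⟩
  sym := by
    intro a b
    rw [Bool.eq_iff_iff, addG_true, addG_true, h.sym a b]
    tauto
  inj := h.inj
  edge := by
    intro a b hab
    rw [addG_true] at hab
    rcases hab with h1 | ⟨rfl, rfl⟩ | ⟨rfl, rfl⟩
    · exact h.edge a b h1
    · exact he
    · rw [T.symm]
      exact he

/-- the goal is realised -/
def Real (k : ℕ) {n : ℕ} (A : Fin n → Fin n → Bool) (g : ℕ) : Prop :=
  ∃ s G f, Emb A s G f ∧ g = code k s G

theorem Emb.addV (T : Tgt k n A x) (hn : n ≤ 16) {s : ℕ} {G : ℕ → ℕ → Bool} {f : ℕ → Fin n}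
    (h : Emb A s G f) (v : ℕ) (hv : v < s) (w : Fin n) (he : A (f v) w = true)
    (hw : ∀ a < s, f a ≠ w) :
    Emb A (s + 1) (addG G v s) (Function.update f s w) where
  sup := by
    intro a b hab
    rw [addG_true] at hab
    rcases hab with h1 | ⟨rfl, rfl⟩ | ⟨rfl, rfl⟩
    · have := h.sup a b h1
      omega
    · omega
    · omega
  sym := by
    intro a b
    rw [Bool.eq_iff_iff, addG_true, addG_true, h.sym a b]
    tauto
  inj := by
    intro i hi j hj hij
    by_cases h1 : i = s
    · by_cases h2 : j = s
      · omega
      · rw [h1, Function.update_self, Function.update_of_ne h2] at hij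
        exact absurd hij.symm (hw j (by omega))
    · by_cases h2 : j = s
      · rw [h2, Function.update_self, Function.update_of_ne h1] at hij
        exact absurd hij (hw i (by omega))
      · rw [Function.update_of_ne h1, Function.update_of_ne h2] at hij
        exact h.inj i (by omega) j (by omega) hij
  edge := by
    intro a b hab
    rw [addG_true] at hab
    rcases hab with h1 | ⟨rfl, rfl⟩ | ⟨rfl, rfl⟩
    · have := h.sup a b h1
      rw [Function.update_of_ne (by omega), Function.update_of_ne (by omega)]
      exact h.edge a b h1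
    · rw [Function.update_self, Function.update_of_ne (by omega)]
      exact he
    · rw [Function.update_self, Function.update_of_ne (by omega), T.symm]
      exact he

theorem fresh_zero (k v s g : ℕ) : fresh k v s 0 g = g := rfl

theorem fresh_succ (k v s i g : ℕ) :
    fresh k v s (i + 1) g = addV k (fresh k v s i g) v (s + i) := rfl

/-- fresh vertices -/
theorem fresh_aux (T : Tgt k n A x) (hn : n ≤ 16)
    (s : ℕ) (G : ℕ → ℕ → Bool) (f : ℕ → Fin n) (v : ℕ) (h : Emb A s G f) (hv : v < s)
    (hc : ∀ a < s, A (f v) (f a) = true → G v a = true) :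
    ∀ i : ℕ, deg G v + i ≤ k → ∃ G' f', Emb A (s + i) G' f' ∧
      fresh k v s i (code k s G) = code k (s + i) G' ∧ deg G' v = deg G v + i ∧
      ∀ a < s + i, A (f' v) (f' a) = true → G' v a = true := by
  intro i
  induction i with
  | zero =>
    intro _
    refine ⟨G, f, ?_, ?_, ?_, ?_⟩
    · rw [add_zero]
      exact h
    · rw [add_zero]
      exact fresh_zero k v s _
    · rw [add_zero]
    · rw [add_zero]
      exact hc
  | succ i ih =>
    intro hi
    obtain ⟨G', f', h1, h2, h3, h4⟩ := ih (by omega)
    have hs := h1.le
    obtain ⟨w, hw1, hw2⟩ := incomplete T (by omega) h1 v (by omega)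
    have hw3 : ∀ a < s + i, f' a ≠ w := by
      intro a ha hfa
      exact hw2 a (h4 a ha (by rw [hfa]; exact hw1)) hfa
    have h5 := Emb.addV T hn h1 v (by omega) w hw1 hw3
    have hs' := h5.le
    refine ⟨_, _, h5, ?_, ?_, ?_⟩
    · rw [fresh_succ, h2]
      exact addV_code k (s + i) G' v h1.sup (by omega) (by omega) (by omega)
    · have hg : G' v (s + i) = false := by
        cases hb : G' v (s + i)
        · rfl
        · exact absurd (h1.sup _ _ hb).2 (by omega)
      have hg' : G' (s + i) v = false := by rw [h1.sym]; exact hg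
      rw [deg_addG G' v (s + i) (by omega) hg hg' (by omega) (by omega) v, if_pos rfl,
        if_neg (by omega), h3]
      omega
    · intro a ha hA
      rw [addG_true]
      by_cases h6 : a = s + i
      · exact Or.inr (Or.inl ⟨rfl, h6⟩)
      · left
        rw [Function.update_of_ne (by omega), Function.update_of_ne h6] at hA
        exact h4 a (by omega) hA

theorem fresh_sound (T : Tgt k n A x) (hn : n ≤ 16) (r s : ℕ) (G : ℕ → ℕ → Bool) (f : ℕ → Fin n)
    (v : ℕ) (h : Emb A s G f) (hv : v < s) (hr : deg G v + r = k)
    (hc : ∀ a < s, A (f v) (f a) = true → G v a = true) :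
      s + r ≤ n ∧ Real k A (fresh k v s r (code k s G)) := by
  obtain ⟨G', f', h1, h2, _, _⟩ := fresh_aux T hn s G f v h hv hc r (by omega)
  exact ⟨h1.le, s + r, G', f', h1, h2⟩

/-- the recursion of `expand` -/
theorem expand_succ (k n v s R j D r g : ℕ) (acc : List ℕ) :
    expand k n v s R (j + 1) D (r + 1) g acc =
      if D = 0 then (if s + (r + 1) ≤ n then fresh k v s (r + 1) g :: acc else acc)
      else if dig R (D.log2 / 4) = 0 then
        expand k n v s R j (D % 16 ^ (D.log2 / 4)) r (addE g v (D.log2 / 4))
          (expand k n v s R j (D % 16 ^ (D.log2 / 4)) (r + 1) g acc)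
      else expand k n v s R j (D % 16 ^ (D.log2 / 4)) (r + 1) g acc := by
  have e1 : Nat.shiftRight (Nat.log2 D) 2 = D.log2 / 4 := Nat.shiftRight_eq_div_pow _ _
  have e2 : Nat.mod D (Nat.shiftLeft 1 (Nat.mul 4 (Nat.shiftRight (Nat.log2 D) 2))) =
      D % 16 ^ (D.log2 / 4) := by
    rw [e1]
    show D % (1 <<< (4 * (D.log2 / 4))) = _
    rw [Nat.shiftLeft_eq, one_mul, pow_mul]
    norm_num
  have e3 : expand k n v s R (j + 1) D (r + 1) g acc =
      Bool.rec (motive := fun _ => List ℕ)
            (Bool.rec (motive := fun _ => List ℕ)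
              (expand k n v s R j (Nat.mod D (Nat.shiftLeft 1 (Nat.mul 4 (Nat.shiftRight (Nat.log2 D) 2))))
                (Nat.succ r) g acc)
              (expand k n v s R j (Nat.mod D (Nat.shiftLeft 1 (Nat.mul 4 (Nat.shiftRight (Nat.log2 D) 2)))) r
                (addE g v (Nat.shiftRight (Nat.log2 D) 2))
                (expand k n v s R j (Nat.mod D (Nat.shiftLeft 1 (Nat.mul 4 (Nat.shiftRight (Nat.log2 D) 2))))
                  (Nat.succ r) g acc))
              (Nat.beq (dig R (Nat.shiftRight (Nat.log2 D) 2)) 0))
            (Bool.rec (motive := fun _ => List ℕ) acc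
              (List.cons (fresh k v s (Nat.succ r) g) acc)
              (Nat.ble (Nat.add s (Nat.succ r)) n))
            (Nat.beq D 0) := rfl
  rw [e3, e2, e1]
  by_cases hD : D = 0
  · rw [if_pos hD]
    have : Nat.beq D 0 = true := by rw [hD]; rfl
    rw [this]
    by_cases hr : s + (r + 1) ≤ n
    · rw [if_pos hr]
      have : Nat.ble (Nat.add s (Nat.succ r)) n = true := Nat.ble_eq_true_of_le hr
      rw [this]
    · rw [if_neg hr]
      have : Nat.ble (Nat.add s (Nat.succ r)) n = false := by
        cases hb : Nat.ble (Nat.add s (Nat.succ r)) n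
        · rfl
        · exact absurd (Nat.le_of_ble_eq_true hb) hr
      rw [this]
  · rw [if_neg hD]
    have : Nat.beq D 0 = false := by
      cases hb : Nat.beq D 0
      · rfl
      · exact absurd (Nat.eq_of_beq_eq_true hb) hD
    rw [this]
    by_cases hR : dig R (D.log2 / 4) = 0
    · rw [if_pos hR]
      have : Nat.beq (dig R (D.log2 / 4)) 0 = true := by rw [hR]; rfl
      rw [this]
    · rw [if_neg hR]
      have : Nat.beq (dig R (D.log2 / 4)) 0 = false := by
        cases hb : Nat.beq (dig R (D.log2 / 4)) 0
        · rfl
        · exact absurd (Nat.eq_of_beq_eq_true hb) hR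
      rw [this]

theorem expand_zero (k n v s R j D g : ℕ) (acc : List ℕ) :
    expand k n v s R j D 0 g acc = g :: acc := by
  cases j <;> rfl

theorem expand_fuel (k n v s R D r g : ℕ) (acc : List ℕ) :
    expand k n v s R 0 D r g acc = g :: acc := rfl

theorem expand_acc (k n v s R : ℕ) : ∀ (j D r g : ℕ) (acc : List ℕ) (y : ℕ), y ∈ acc →
    y ∈ expand k n v s R j D r g acc := by
  intro j
  induction j with
  | zero =>
    intro D r g acc y hy
    rw [expand_fuel]
    exact List.mem_cons_of_mem _ hy
  | succ j ih =>
    intro D r g acc y hy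
    cases r with
    | zero =>
      rw [expand_zero]
      exact List.mem_cons_of_mem _ hy
    | succ r =>
      rw [expand_succ]
      split_ifs
      · exact List.mem_cons_of_mem _ hy
      · exact hy
      · exact ih _ _ _ _ _ (ih _ _ _ _ _ hy)
      · exact ih _ _ _ _ _ hy

theorem expand_sound (T : Tgt k n A x) (hn : n ≤ 16) (hk : k < 16) (v s R : ℕ) (f : ℕ → Fin n)
    (hv : v < s) : ∀ (j D r : ℕ) (G : ℕ → ℕ → Bool) (acc : List ℕ) (t : ℕ),
      Emb A s G f → deg G v + r = k → t ≤ s →
      D = dsum 16 t (fun u => if u = v then 0 else k - deg G u) →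
      (∀ u < t, dig R u = bb (G v u)) →
      (∀ u < s, t ≤ u → A (f v) (f u) = true → G v u = true) →
      ∃ g' ∈ expand k n v s R j D r (code k s G) acc, Real k A g' := by
  intro j
  induction j with
  | zero =>
    intro D r G acc t h _ _ _ _ _
    exact ⟨_, by rw [expand_fuel]; exact List.mem_cons_self, s, G, f, h, rfl⟩
  | succ j ih =>
    intro D r G acc t h hr ht hD hR hc
    cases r with
    | zero =>
      rw [expand_zero]
      exact ⟨_, List.mem_cons_self, s, G, f, h, rfl⟩
    | succ r =>
      have hs := h.le
      have hdig : ∀ i < t, (fun u => if u = v then 0 else k - deg G u) i < 16 := by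
        intro i _
        show (if i = v then 0 else k - deg G i) < 16
        split_ifs <;> omega
      -- a complete old vertex
      have hcomp : ∀ u < s, (if u = v then 0 else k - deg G u) = 0 → A (f v) (f u) = true →
          G v u = true := by
        intro u hu h0 hA
        by_cases huv : u = v
        · rw [huv, T.irr] at hA
          exact absurd hA (by decide)
        · rw [if_neg huv] at h0
          have hd : deg G u = k := by
            have := deg_le_k T (by omega) h u
            omega
          rw [T.symm] at hA
          obtain ⟨a, ha1, ha2⟩ := complete T (by omega) h u hd _ hA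
          have : a = v := h.inj a (h.sup u a ha1).2 v hv ha2
          rw [← this, h.sym]
          exact ha1
      rw [expand_succ]
      by_cases hD0 : D = 0
      · rw [if_pos hD0]
        have hall : ∀ a < s, A (f v) (f a) = true → G v a = true := by
          intro a ha hA
          rcases Nat.lt_or_ge a t with h1 | h1
          · refine hcomp a ha ?_ hA
            have h2 : dsum 16 t (fun u => if u = v then 0 else k - deg G u) = 0 := by
              rw [← hD, hD0]
            have h3 := (Finset.sum_eq_zero_iff.1 h2) a (mem_range.2 h1)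
            rcases Nat.mul_eq_zero.1 h3 with h4 | h4
            · exact h4
            · exact absurd h4 (by positivity)
          · exact hc a ha h1 hA
        obtain ⟨h1, h2⟩ := fresh_sound T hn (r + 1) s G f v h hv hr hall
        rw [if_pos h1]
        exact ⟨_, List.mem_cons_self, h2⟩
      · rw [if_neg hD0]
        obtain ⟨hu1, hu2, hu3⟩ := log_digit t D _ hdig hD hD0
        set u := D.log2 / 4 with hu
        have huv : u ≠ v := fun h' => hu2 (if_pos h')
        have hmod : D % 16 ^ u = dsum 16 u (fun u => if u = v then 0 else k - deg G u) := by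
          rw [hD]
          exact dsum_mod 16 (by norm_num) t u _ hu1.le hdig
        -- the vertices above `u` are done
        have hc' : ∀ w < s, u < w → A (f v) (f w) = true → G v w = true := by
          intro w hw huw hA
          rcases Nat.lt_or_ge w t with h1 | h1
          · exact hcomp w hw (hu3 w h1 huw) hA
          · exact hc w hw h1 hA
        -- skipping
        have hskip : ∀ acc, (A (f v) (f u) = true → G v u = true) →
            ∃ g' ∈ expand k n v s R j (D % 16 ^ u) (r + 1) (code k s G) acc, Real k A g' := by
          intro acc hA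
          refine ih (D % 16 ^ u) (r + 1) G acc u h hr (by omega) hmod
            (fun w hw => hR w (by omega)) ?_
          intro w hw huw hA'
          rcases Nat.lt_or_ge u w with h1 | h1
          · exact hc' w hw h1 hA'
          · have : w = u := by omega
            rw [this] at hA' ⊢
            exact hA hA'
        by_cases hRu : dig R u = 0
        · rw [if_pos hRu]
          have hG : G v u = false := by
            cases hb : G v u
            · rfl
            · rw [hR u hu1, hb] at hRu
              exact absurd hRu (by decide)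
          by_cases hA : A (f v) (f u) = true
          · -- take
            have hG' : G u v = false := by rw [h.sym]; exact hG
            have hdu : deg G u < k := by
              have : (if u = v then 0 else k - deg G u) ≠ 0 := hu2
              rw [if_neg huv] at this
              omega
            have h5 := Emb.addE T h v u hv (by omega) hA
            have h6 := addE_code k s G v u huv.symm hG hG' (by omega) hv (by omega) (by omega) hdu
            rw [h6]
            have hdeg := deg_addG G v u huv.symm hG hG' (by omega) (by omega)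
            refine ih (D % 16 ^ u) r (addG G v u) _ u h5 ?_ (by omega) ?_ ?_ ?_
            · rw [hdeg v, if_pos rfl, if_neg huv.symm]
              omega
            · rw [hmod]
              refine dsum_congr _ _ _ _ fun w hw => ?_
              by_cases hwv : w = v
              · rw [if_pos hwv, if_pos hwv]
              · rw [if_neg hwv, if_neg hwv, hdeg w, if_neg hwv, if_neg (by omega)]
                omega
            · intro w hw
              rw [hR w (by omega)]
              unfold bb
              have : (addG G v u v w = true) ↔ (G v w = true) := by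
                rw [addG_true]
                constructor
                · rintro (h7 | ⟨_, h7⟩ | ⟨h7, _⟩)
                  · exact h7
                  · omega
                  · exact absurd h7.symm huv
                · exact Or.inl
              simp only [this]
            · intro w hw huw hA'
              rw [addG_true]
              rcases Nat.lt_or_ge u w with h1 | h1
              · exact Or.inl (hc' w hw h1 hA')
              · have : w = u := by omega
                exact Or.inr (Or.inl ⟨rfl, this⟩)
          · obtain ⟨g', hg', hreal⟩ := hskip acc (fun h' => absurd h' hA)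
            exact ⟨g', expand_acc _ _ _ _ _ _ _ _ _ _ _ hg', hreal⟩
        · rw [if_neg hRu]
          refine hskip acc fun _ => ?_
          cases hb : G v u
          · rw [hR u hu1, hb] at hRu
            exact absurd rfl hRu
          · rfl

/-- soundness of a branching -/
theorem br_sound (T : Tgt k n A x) (hn : n ≤ 16) (hk : k < 16) (g v : ℕ) (st : List ℕ)
    (hv : v < g % 32) (h : ∀ y ∈ br k n g v st, ¬ Real k A y) :
    ¬ Real k A g ∧ ∀ y ∈ st, ¬ Real k A y := by
  refine ⟨?_, fun y hy => h y (expand_acc _ _ _ _ _ _ _ _ _ _ _ hy)⟩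
  rintro ⟨s, G, f, hE, hg⟩
  have hs := hE.le
  have hgs : g % 32 = s := by rw [hg]; exact code_mod32 k s G (by omega)
  have hrow : row g v = rw' G v := by
    rw [hg]
    exact row_code k s G hk (by omega) v (by omega)
  have hdv := deg_le_k T (by omega) hE v
  have hD : (g >>> 5) % 18446744073709551616 = DG k s G := by
    have h1 : (18446744073709551616 : ℕ) = 2 ^ 64 := by norm_num
    rw [h1, Nat.shiftRight_eq_div_pow, hg]
    exact code_D k s G hk (by omega)
  have hbr : br k n g v st = expand k n v s (rw' G v) 17
      (dsum 16 s (fun u => if u = v then 0 else k - deg G u)) (k - deg G v) (code k s G) st := by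
    have e1 : br k n g v st = expand k n v (g % 32) (row g v) 17
      ((g >>> 5) % 18446744073709551616 - (k - row g v % 65535) <<< (4 * v))
      (k - row g v % 65535) g st := rfl
    rw [e1, hrow, rw_mod, hD, hgs, ← hg]
    congr 1
    refine Nat.sub_eq_of_eq_add ?_
    rw [Nat.shiftLeft_eq, pow_mul]
    have h16 : (2 : ℕ) ^ 4 = 16 := by norm_num
    rw [h16, ← dsum_if 16 s v (k - deg G v) (by omega), ← dsum_add]
    unfold DG
    refine dsum_congr _ _ _ _ fun u _ => ?_
    by_cases huv : u = v
    · rw [if_pos huv, if_pos huv, huv, zero_add]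
    · rw [if_neg huv, if_neg huv, add_zero]
  obtain ⟨g', hg', hreal⟩ := expand_sound T hn hk v s (rw' G v) f (by omega) 17 _
    (k - deg G v) G st s hE (by omega) le_rfl rfl
    (fun u hu => dig_rw G v u (by omega)) (fun u hu hu' => absurd hu' (by omega))
  rw [← hbr] at hg'
  exact h g' hg' hreal

end

end Pool.Agent.helper83.NutSmall2
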