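import Pool.Agent.helper83.NutSmall.Check

/-!
# Table of states for degree 3 and order 10
-/

set_option autoImplicit false

namespace Pool.Agent.helper83.NutSmall2.T3_10

/-- block 0 -/
def b0 : Nat :=
  0x1000000000000000000000000000000000000000000000000000000000000000000000000000000000000000018418218006400000000000000000000000000000000000000000000000000000000000000000000000000000000002062041821000800a50000000000000000000000000000000000000000000000000000000000000000000000000000000000000184182100080084000000000000000000000000000000000000000000000000000000000000000000040e40c38a30a408386206304282200149000000000000000000000000000000000000000000000000000000000000000000038c30a3883862863042042822021801480000000000000000000000000000000000000000000000000000000000000000000000000000000000000000102100080063000000000000000000000000000000000000000000000000000000000000000000040e40c38c40a288386206304282200149000000000000000000000000000000000000000000000000000000000000000000038c38a308386286304204282202180148000000000000000000000000000000000000000000000000000000000000000000000000030a308288306284184202180107000000000000000000000000000000000000000000000000000000000000000000000030a30828830628418420218210012700000000000000000000000000000000000000000000000000000000000000000000000000000002062041842021821000c5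

/-- the table -/
noncomputable def T (i : Nat) : Nat :=
  sel i 0 b0 b0

end Pool.Agent.helper83.NutSmall2.T3_10
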